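import Pool.Agent.N352.PF.All
import Pool.Agent.H68K.PR.StmT

/-!
# Many polynomials in the family, for all unit multiples of the polynomial at the small primes

Project PR (helper68), phase 2: parts S_FAMU and S_SCLS (helper72). The count is that of
`N951/PF/Fam.lean`: the constant depends only on the modulus `W`.
-/

set_option autoImplicit false
set_option linter.all false

open Polynomial NumberField IsDedekindDomain
open scoped Classical

namespace Pool.Agent.H72P.PR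

open Pool.Agent.N352.PJ (dd pol dis Dy D2)
open Pool.Agent.N352.PF (dg Bal nv rv Bz Bx S_BX S_SML S_WK S_STR S_DSC S_GF S_PF)
open Pool.Agent.N783.PF (Bd Cg sp rd Ht GoodS GoodF Fam S_FAM)
open Pool.Agent.N951.PF

theorem fam_gen (h1 : S_BX) (h2 : S_SML) (h3 : S_WK) (h4 : S_STR) (h5 : S_DSC) (h6 : S_GF)
    (h7 : S_PF) (F : Type) [Field F] [NumberField F] (g : ℕ) (hg : 1 ≤ g) (K : ℕ) :
    ∃ (W : ℕ) (f₁ : (𝓞 F)[X]), K ≤ W ∧ GoodF g W f₁ ∧ ∃ c : ℝ, 0 < c ∧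
    ∀ f₂ : (𝓞 F)[X], GoodF g W f₂ →
    ∀ (S : Finset ℕ) (𝔮 : ℕ → Ideal (𝓞 F)) (h P : ℕ → (𝓞 F)[X]),
    GoodS g W S 𝔮 h P → ∃ B₀ : ℕ, ∀ B ≥ B₀,
    c * (B : ℝ) ^ (Module.finrank ℚ F * dd g) ≤
      (((∏ q ∈ S, q ^ (2 * g)) ^ Module.finrank ℚ F : ℕ) : ℝ) *
      ({f : (𝓞 F)[X] | Fam g B W f₂ S P f}.ncard : ℝ) := by
  obtain ⟨M, C₂, hC₂, hM⟩ := h2 F g hg
  obtain ⟨C₁, hC₁, hBX⟩ := h1 F g
  obtain ⟨p₀, hp₀K, hp₀⟩ := Nat.exists_infinite_primes K
  obtain ⟨W, f₁, hmon, hdeg, htr, hW0, htwo, hirr, hsep, hW⟩ :=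
    h6 F g (max p₀ (max M (2 * g + 1))) hg
  have hKW : K ≤ W := hp₀K.trans (Nat.le_of_dvd hW0 (hW p₀ hp₀ (le_max_left _ _)))
  have hne : ∀ (𝔭 : Ideal (𝓞 F)) (n : ℕ), 0 < n → (n : 𝓞 F) ∈ 𝔭 → 𝔭 ≠ ⊥ := by
    intro 𝔭 n hn hm h0
    rw [h0, Ideal.mem_bot] at hm
    have : n = 0 := by exact_mod_cast hm
    omega
  have hgood : GoodF g W f₁ := by
    refine ⟨hmon, hdeg, htr, hW0, htwo, ?_, ?_⟩
    · intro 𝔭 hp h2m
      have hb : 𝔭 ≠ ⊥ := hne 𝔭 2 two_pos (by exact_mod_cast h2m)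
      exact hirr ⟨𝔭, hp, hb⟩ h2m
    · intro 𝔭 hp hWm
      exact hsep ⟨𝔭, hp, hne 𝔭 W hW0 hWm⟩ hWm
  refine ⟨W, f₁, hKW, hgood, 1 / (2 * C₁ * (W : ℝ) ^ (2 * g * dg F)), by positivity,
    fun f₂ hg2 S 𝔮 h P hS => ?_⟩
  clear hmon hdeg htr htwo hirr hsep hgood
  have hmon := hg2.mon
  have hdeg := hg2.deg
  have htr := hg2.tr
  have hsep : ∀ v : HeightOneSpectrum (𝓞 F), (W : 𝓞 F) ∈ v.asIdeal → (rv v f₂).Separable :=
    fun v hv => hg2.sep v.asIdeal v.isPrime hv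
  obtain ⟨Q, hQ⟩ : ∃ Q : ℕ, Q = ∏ q ∈ S, q := ⟨_, rfl⟩
  have hQ0 : 0 < Q := by
    rw [hQ]
    exact Finset.prod_pos fun q hq => (hS q hq).1.pos
  have hWQ : 0 < W * Q := Nat.mul_pos hW0 hQ0
  -- residues
  have hcrt : ∀ j : Fin (2 * g), ∃ x : 𝓞 F, (W : 𝓞 F) ∣ x - f₂.coeff j ∧
      ∀ q ∈ S, (q : 𝓞 F) ∣ x - (P q).coeff j := fun j =>
    crt W S (fun q hq => ⟨(hS q hq).1, fun hd =>
      absurd (Nat.le_of_dvd hW0 hd) (by have := (hS q hq).2.1; omega)⟩) _ _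
  choose A hA1 hA2 using hcrt
  obtain ⟨B₁, hB₁⟩ := h4 F g hg (1 / (4 * C₁ * ((W * Q : ℕ) : ℝ) ^ (2 * g * dg F))) (by positivity)
  refine ⟨max B₁ (max (C₁ * (W * Q)) (C₂ * (W * Q))), fun B hB => ?_⟩
  have hBB1 : B₁ ≤ B := (le_max_left _ _).trans hB
  have hBC1 : C₁ * (W * Q) ≤ B := ((le_max_left _ _).trans (le_max_right _ _)).trans hB
  have hBC2 : C₂ * (W * Q) ≤ B := ((le_max_right _ _).trans (le_max_right _ _)).trans hB
  obtain ⟨hfin, hcard, -⟩ := hBX B (W * Q) A hWQ hBC1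
  obtain ⟨hfin0, -, -⟩ := hBX B 1 (fun _ => 0) one_pos
    (le_trans (Nat.mul_le_mul_left C₁ hWQ) hBC1)
  have hBz : (Bz F g B).Finite := by
    refine hfin0.subset ?_
    intro a ha
    exact ⟨ha, fun j => by simp⟩
  have hsml := hM B (W * Q) A hWQ hBC2
  have hstr := hB₁ B hBB1
  set U := Bx g B (W * Q) A with hU
  set U1 := {a ∈ U | ∃ v : HeightOneSpectrum (𝓞 F), M < nv v ∧ nv v ^ 2 < B ^ dg F ∧
    ((W * Q : ℕ) : 𝓞 F) ∉ v.asIdeal ∧ dis a ∈ v.asIdeal ^ 2} with hU1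
  set U2 := {a ∈ Bz F g B | ∃ v : HeightOneSpectrum (𝓞 F), B ^ dg F ≤ nv v ^ 2 ∧
    dis a ∈ v.asIdeal ∧ D2 a ∈ v.asIdeal} with hU2
  have hU1f : U1.Finite := hfin.subset (Set.sep_subset _ _)
  have hU2f : U2.Finite := hBz.subset (Set.sep_subset _ _)
  -- the good ones are in the family
  have key : pol '' (U \ (U1 ∪ U2)) ⊆ {f : (𝓞 F)[X] | Fam g B W f₂ S P f} := by
    rintro _ ⟨a, ⟨haU, ha⟩, rfl⟩
    have haB : a ∈ Bz F g B := haU.1
    have haR : ∀ j, ((W * Q : ℕ) : 𝓞 F) ∣ a j - A j := haU.2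
    have hone : Cg (sp F W) (pol a) f₂ := by
      apply cg_pol a hmon hdeg htr
      intro j
      rw [Ideal.mem_span_singleton]
      have e1 : (W : 𝓞 F) ∣ a j - A j := dvd_trans (by push_cast; exact dvd_mul_right _ _) (haR j)
      have e2 : a j - f₂.coeff j = (a j - A j) + (A j - f₂.coeff j) := by ring
      rw [e2]
      exact dvd_add e1 (hA1 j)
    have hcon : ∀ q ∈ S, Cg (sp F q) (pol a) (P q) := by
      intro q hq
      obtain ⟨hq1, hq2, hq3, hq4, hq5, hq6, hq7, hq8, hq9, hq10, hq11, hq12, hq13, hq14, hq15⟩ :=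
        hS q hq
      apply cg_pol a hq11 hq12 hq13
      intro j
      rw [Ideal.mem_span_singleton]
      have e0 : (q : 𝓞 F) ∣ ((W * Q : ℕ) : 𝓞 F) := by
        have e3 : q ∣ W * Q := by
          rw [hQ]
          exact Dvd.dvd.mul_left (Finset.dvd_prod_of_mem (fun q => q) hq) W
        exact Nat.cast_dvd_cast e3
      have e1 : (q : 𝓞 F) ∣ a j - A j := dvd_trans e0 (haR j)
      have e2 : a j - (P q).coeff j = (a j - A j) + (A j - (P q).coeff j) := by ring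
      rw [e2]
      exact dvd_add e1 (hA2 j q hq)
    refine ⟨ht_pol haB, hone, hcon, fun 𝔭 hp hb hPd => ?_⟩
    obtain ⟨v, hv⟩ : ∃ v : HeightOneSpectrum (𝓞 F), v.asIdeal = 𝔭 := ⟨⟨𝔭, hp, hb⟩, rfl⟩
    subst hv
    have hPd' : dis a ∈ v.asIdeal ^ 2 := hPd
    have hPd1 : Pool.Agent.N352.PF.dsc g (pol a) ∈ v.asIdeal :=
      Ideal.pow_le_self two_ne_zero hPd
    haveI : Finite (𝓞 F ⧸ v.asIdeal) := v.asIdeal.finiteQuotientOfFreeOfNeBot v.ne_bot
    haveI : IsDomain (𝓞 F ⧸ v.asIdeal) := Ideal.Quotient.isDomain v.asIdeal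
    have hPW : (W : 𝓞 F) ∉ v.asIdeal := by
      intro hd
      refine h5 F g v (pol a) f₂ hg (pol_monic a) (pol_natDegree a) ?_ (hsep v hd) hPd1
      intro j
      exact (Ideal.span_singleton_le_iff_mem _).2 hd (hone j)
    have hPS : ∀ q ∈ S, (q : 𝓞 F) ∉ v.asIdeal := by
      intro q hq hd
      obtain ⟨hq1, hq2, hq3, hq4, hq5, hq6, hq7, hq8, hq9, hq10, hq11, hq12, hq13, hq14, hq15⟩ :=
        hS q hq
      have hc : ∀ j, (pol a).coeff j - (P q).coeff j ∈ v.asIdeal := fun j =>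
        (Ideal.span_singleton_le_iff_mem _).2 hd (hcon q hq j)
      by_cases hv : v.asIdeal = 𝔮 q
      · refine h5 F g v (pol a) (X * h q) hg (pol_monic a) (pol_natDegree a) ?_ ?_ hPd1
        · intro j
          have e1 : (pol a).coeff j - (X * h q).coeff j =
              ((pol a).coeff j - (P q).coeff j) + ((P q).coeff j - (X * h q).coeff j) := by ring
          rw [e1]
          refine Ideal.add_mem _ (hc j) ?_
          rw [hv]
          exact hq14 j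
        · have e1 : rv v (X * h q) = X * rv v (h q) := by
            rw [rv, rv, Polynomial.map_mul, Polynomial.map_X]
          rw [e1]
          have e2 : Irreducible (rv v (h q)) := by
            have e3 : Irreducible (rd v.asIdeal (h q)) := by
              rw [hv]
              exact hq10
            exact e3
          refine sep_X_mul e2 ?_
          rw [rv, hq8.natDegree_map, hq9]
          omega
      · refine h5 F g v (pol a) (P q) hg (pol_monic a) (pol_natDegree a) hc ?_ hPd1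
        exact sep_of_irr (hq15 v.asIdeal v.isPrime hd hv)
    have hPQ : ((W * Q : ℕ) : 𝓞 F) ∉ v.asIdeal := by
      intro hd
      rw [Nat.cast_mul] at hd
      rcases v.isPrime.mem_or_mem hd with hd | hd
      · exact hPW hd
      · rw [hQ, Nat.cast_prod] at hd
        obtain ⟨q, hq, hqm⟩ := (Ideal.IsPrime.prod_mem_iff (hp := v.isPrime)).1 hd
        exact hPS q hq hqm
    have hsmall : ∀ n : ℕ, 0 < n → (n : 𝓞 F) ∈ v.asIdeal →
        (∀ p : ℕ, p.Prime → p ∣ n → p ≤ max p₀ (max M (2 * g + 1))) → False := by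
      intro n hn hm hle
      obtain ⟨p, hp1, hp2, hp3⟩ := prime_factor v.asIdeal v.isPrime n hn hm
      have e1 := hW p hp1 (hle p hp1 hp2)
      apply hPW
      obtain ⟨m, hm⟩ := e1
      rw [hm, Nat.cast_mul]
      exact Ideal.mul_mem_right _ _ hp3
    have hfac : ((2 * g + 1).factorial : 𝓞 F) ∉ v.asIdeal := by
      intro hd
      refine hsmall _ (Nat.factorial_pos _) hd fun p hp hpd => ?_
      exact ((hp.dvd_factorial).1 hpd).trans ((le_max_right _ _).trans (le_max_right _ _))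
    have hPM1 : M < nv v := by
      by_contra hc
      have hnv2 : 2 ≤ nv v := (h7 F).2.2 v
      refine hsmall (nv v) (by omega) (Ideal.absNorm_mem v.asIdeal) fun p hp hpd => ?_
      have e1 := Nat.le_of_dvd (by omega) hpd
      exact (e1.trans (not_lt.1 hc)).trans ((le_max_left _ _).trans (le_max_right _ _))
    have hBP : B ^ dg F ≤ nv v ^ 2 := by
      by_contra hc
      exact ha (Or.inl ⟨haU, v, hPM1, not_le.1 hc, hPQ, hPd'⟩)
    refine ⟨hBP, h3 F g v hg hfac a hPd' fun hD => ?_⟩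
    exact ha (Or.inr ⟨haB, v, hBP, hPd1, hD⟩)
  -- finiteness of the family
  have hFf : {f : (𝓞 F)[X] | Fam g B W f₂ S P f}.Finite := by
    refine (hBz.image pol).subset ?_
    intro f hf
    exact ⟨fun j => f.coeff j, bz_coeff hf.ht, (eq_pol hf.ht).symm⟩
  -- counting
  have c1 : (U \ (U1 ∪ U2)).ncard ≤ {f : (𝓞 F)[X] | Fam g B W f₂ S P f}.ncard := by
    rw [← Set.ncard_image_of_injective _ pol_inj]
    exact Set.ncard_le_ncard key hFf
  have c2 : U.ncard ≤ (U \ (U1 ∪ U2)).ncard + (U1.ncard + U2.ncard) := by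
    have e1 := Set.ncard_le_ncard_diff_add_ncard U (U1 ∪ U2) (hU1f.union hU2f)
    have e2 := Set.ncard_union_le U1 U2
    omega
  have c3 : (4 : ℝ) * U1.ncard ≤ U.ncard := by exact_mod_cast hsml
  have hC0 : (0 : ℝ) < C₁ := by exact_mod_cast hC₁
  have c4 : (B : ℝ) ^ (dg F * dd g) ≤
      C₁ * U.ncard * ((W * Q : ℕ) : ℝ) ^ (2 * g * dg F) := by exact_mod_cast hcard
  have hP0 : (0 : ℝ) < ((W * Q : ℕ) : ℝ) ^ (2 * g * dg F) := by positivity
  have c5 : (4 : ℝ) * U2.ncard ≤ U.ncard := by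
    have e1 : (U2.ncard : ℝ) ≤ 1 / (4 * C₁ * ((W * Q : ℕ) : ℝ) ^ (2 * g * dg F)) *
        (C₁ * U.ncard * ((W * Q : ℕ) : ℝ) ^ (2 * g * dg F)) :=
      hstr.trans (mul_le_mul_of_nonneg_left c4 (by positivity))
    have e2 : 1 / (4 * C₁ * ((W * Q : ℕ) : ℝ) ^ (2 * g * dg F)) *
        (C₁ * U.ncard * ((W * Q : ℕ) : ℝ) ^ (2 * g * dg F)) = U.ncard / 4 := by
      field_simp
    rw [e2] at e1
    linarith
  have c6 : (U.ncard : ℝ) ≤ 2 * ({f : (𝓞 F)[X] | Fam g B W f₂ S P f}.ncard : ℝ) := by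
    have e1 : (U.ncard : ℝ) ≤ ((U \ (U1 ∪ U2)).ncard : ℝ) + (U1.ncard + U2.ncard) := by
      exact_mod_cast c2
    have e2 : ((U \ (U1 ∪ U2)).ncard : ℝ) ≤
        ({f : (𝓞 F)[X] | Fam g B W f₂ S P f}.ncard : ℝ) := by
      exact_mod_cast c1
    linarith
  have c7 : (((∏ q ∈ S, q ^ (2 * g)) ^ Module.finrank ℚ F : ℕ) : ℝ) =
      (Q : ℝ) ^ (2 * g * dg F) := by
    rw [hQ, Finset.prod_pow]
    push_cast
    rw [← pow_mul]
  rw [c7]
  have hW1 : (0 : ℝ) < (W : ℝ) ^ (2 * g * dg F) := by positivity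
  have c8 : (B : ℝ) ^ (dg F * dd g) ≤
      C₁ * (2 * ({f : (𝓞 F)[X] | Fam g B W f₂ S P f}.ncard : ℝ)) *
      ((W * Q : ℕ) : ℝ) ^ (2 * g * dg F) :=
    c4.trans (mul_le_mul_of_nonneg_right (mul_le_mul_of_nonneg_left c6 hC0.le) hP0.le)
  rw [one_div_mul_eq_div, div_le_iff₀ (by positivity)]
  refine c8.trans (le_of_eq ?_)
  push_cast
  rw [mul_pow]
  ring

/-! ### Unit multiples -/

section scale

variable {R : Type} [CommRing R]

theorem scaleRoots_comp (f : R[X]) {s t : R} (h : s * t = 1) :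
    f.scaleRoots s = C (s ^ f.natDegree) * f.comp (C t * X) := by
  ext n
  rw [coeff_scaleRoots, coeff_C_mul, comp_C_mul_X_coeff]
  rcases Nat.lt_or_ge f.natDegree n with h1 | h1
  · rw [coeff_eq_zero_of_natDegree_lt h1]
    simp
  · have e : s ^ f.natDegree * t ^ n = s ^ (f.natDegree - n) := by
      have e1 : s ^ f.natDegree = s ^ (f.natDegree - n) * s ^ n := by
        rw [← pow_add]
        congr 1
        omega
      rw [e1, mul_assoc, ← mul_pow, h, one_pow, mul_one]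
    rw [← e]
    ring

theorem irr_scale [IsDomain R] {f : R[X]} {s t : R} (h : s * t = 1) (hf : Irreducible f) :
    Irreducible (f.scaleRoots s) := by
  letI : Invertible t := ⟨s, h, by rw [mul_comm]; exact h⟩
  have h1 : Irreducible (f.comp (C t * X)) := by
    have e : f.comp (C t * X) = algEquivCMulXAddC t 0 f := by
      simp [algEquivCMulXAddC, comp, aeval_def, eval₂_eq_eval_map]
    rw [e]
    exact (MulEquiv.irreducible_iff (algEquivCMulXAddC t (0 : R))).2 hf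
  rw [scaleRoots_comp f h]
  have hu : IsUnit (C (s ^ f.natDegree) : R[X]) :=
    isUnit_C.2 ((IsUnit.of_mul_eq_one _ h).pow _)
  exact (irreducible_isUnit_mul hu).2 h1

theorem sep_scale {f : R[X]} {s t : R} (h : s * t = 1) (hf : f.Separable) :
    (f.scaleRoots s).Separable := by
  rw [scaleRoots_comp f h]
  have hu : IsUnit s := IsUnit.of_mul_eq_one _ h
  have ht : IsUnit t := IsUnit.of_mul_eq_one s (by rw [mul_comm]; exact h)
  have hc : IsUnit (C (s ^ f.natDegree) : R[X]) := isUnit_C.2 (hu.pow _)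
  have hct : IsUnit (C t : R[X]) := isUnit_C.2 ht
  rw [Separable, derivative_mul, derivative_C, zero_mul, zero_add, derivative_comp]
  have h1 : IsCoprime (f.comp (C t * X)) ((derivative f).comp (C t * X)) := by
    have h2 := IsCoprime.map hf (compRingHom (C t * X))
    simpa using h2
  have h3 : derivative (C t * X : R[X]) = C t := by simp
  rw [h3]
  rw [isCoprime_mul_unit_left_left hc, isCoprime_mul_unit_left_right hc]
  exact (isCoprime_mul_unit_left_right hct _ _).2 h1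

end scale

section scl

variable {F : Type} [Field F] [NumberField F]

open Pool.Agent.H68K.PR (scl)

theorem scl_monic (u : (𝓞 F)ˣ) {f : (𝓞 F)[X]} (hf : f.Monic) : (scl u f).Monic :=
  (monic_scaleRoots_iff _).2 hf

theorem scl_deg (u : (𝓞 F)ˣ) (f : (𝓞 F)[X]) : (scl u f).natDegree = f.natDegree :=
  natDegree_scaleRoots _ _

theorem scl_coeff (u : (𝓞 F)ˣ) (f : (𝓞 F)[X]) (n : ℕ) :
    (scl u f).coeff n = f.coeff n * ((u : 𝓞 F) ^ 2) ^ (f.natDegree - n) :=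
  coeff_scaleRoots _ _ _

theorem rd_scl (u : (𝓞 F)ˣ) {f : (𝓞 F)[X]} (hf : f.Monic) (𝔭 : Ideal (𝓞 F)) (hp : 𝔭.IsPrime) :
    rd 𝔭 (scl u f) = (rd 𝔭 f).scaleRoots ((Ideal.Quotient.mk 𝔭 (u : 𝓞 F)) ^ 2) := by
  haveI : Nontrivial (𝓞 F ⧸ 𝔭) := Ideal.Quotient.nontrivial_iff.2 hp.ne_top
  rw [scl, rd, map_scaleRoots, map_pow]
  rw [hf.leadingCoeff, map_one]
  exact one_ne_zero

theorem unit_mk (u : (𝓞 F)ˣ) (𝔭 : Ideal (𝓞 F)) :
    (Ideal.Quotient.mk 𝔭 (u : 𝓞 F)) ^ 2 * (Ideal.Quotient.mk 𝔭 ((u⁻¹ : (𝓞 F)ˣ) : 𝓞 F)) ^ 2 = 1 := by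
  rw [← mul_pow, ← map_mul, Units.mul_inv, map_one, one_pow]

theorem rd_scl_irr (u : (𝓞 F)ˣ) {f : (𝓞 F)[X]} (hf : f.Monic) (𝔭 : Ideal (𝓞 F)) (hp : 𝔭.IsPrime)
    (h : Irreducible (rd 𝔭 f)) : Irreducible (rd 𝔭 (scl u f)) := by
  haveI : IsDomain (𝓞 F ⧸ 𝔭) := Ideal.Quotient.isDomain 𝔭
  rw [rd_scl u hf 𝔭 hp]
  exact irr_scale (unit_mk u 𝔭) h

theorem rd_scl_sep (u : (𝓞 F)ˣ) {f : (𝓞 F)[X]} (hf : f.Monic) (𝔭 : Ideal (𝓞 F)) (hp : 𝔭.IsPrime)
    (h : (rd 𝔭 f).Separable) : (rd 𝔭 (scl u f)).Separable := by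
  rw [rd_scl u hf 𝔭 hp]
  exact sep_scale (unit_mk u 𝔭) h

theorem goodF_scl {g W : ℕ} {f₁ : (𝓞 F)[X]} (u : (𝓞 F)ˣ) (h : GoodF g W f₁) :
    GoodF g W (scl u f₁) := by
  refine ⟨scl_monic u h.mon, (scl_deg u f₁).trans h.deg, ?_, h.pos, h.two, ?_, ?_⟩
  · rw [scl_coeff, h.tr, zero_mul]
  · exact fun 𝔭 hp hm => rd_scl_irr u h.mon 𝔭 hp (h.irr 𝔭 hp hm)
  · exact fun 𝔭 hp hm => rd_scl_sep u h.mon 𝔭 hp (h.sep 𝔭 hp hm)

theorem cg_scl {𝔞 : Ideal (𝓞 F)} {f f' : (𝓞 F)[X]} (u : (𝓞 F)ˣ) (hd : f.natDegree = f'.natDegree)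
    (h : Cg 𝔞 f f') : Cg 𝔞 (scl u f) (scl u f') := by
  intro j
  rw [scl_coeff, scl_coeff, hd, ← sub_mul]
  exact Ideal.mul_mem_right _ _ (h j)

theorem scl_X_mul (u : (𝓞 F)ˣ) (f : (𝓞 F)[X]) : scl u (X * f) = X * scl u f := by
  rw [scl, mul_scaleRoots_of_noZeroDivisors]
  congr 1
  have := X_add_C_scaleRoots (0 : 𝓞 F) ((u : 𝓞 F) ^ 2)
  simpa using this

end scl

/-- SCLS -/
theorem scls : Pool.Agent.H68K.PR.S_SCLS := by
  intro F _ _ W u S 𝔮 h P hS q hq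
  obtain ⟨hq1, hq2, hq3, hq4, hq5, hq6, hq7, hq8, hq9, hq10, hq11, hq12, hq13, hq14, hq15⟩ :=
    hS q hq
  refine ⟨hq1, hq2, hq3, hq4, hq5, hq6, hq7, scl_monic u hq8, (scl_deg u _).trans hq9,
    rd_scl_irr u hq8 _ hq6 hq10, scl_monic u hq11, (scl_deg u _).trans hq12, ?_, ?_, ?_⟩
  · rw [scl_coeff, hq13, zero_mul]
  · rw [← scl_X_mul]
    refine cg_scl u ?_ hq14
    rw [hq12, (monic_X.natDegree_mul hq8), natDegree_X, hq9]
  · exact fun 𝔭 hp hm hne => rd_scl_irr u hq11 𝔭 hp (hq15 𝔭 hp hm hne)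

/-- FAMU -/
theorem famu : Pool.Agent.H68K.PR.S_FAMU := by
  intro F _ _ K
  obtain ⟨W, f₁, hK, hf, c, hc, h⟩ := fam_gen Pool.Agent.N352.PF.bxT
    (Pool.Agent.N352.PF.SML99.sml Pool.Agent.N75.PF.cu Pool.Agent.N352.PF.bxT
      Pool.Agent.N189.PF.ld Pool.Agent.N195.PF.pr Pool.Agent.N195.PF.pf)
    Pool.Agent.N935.PF.WK.wk
    (Pool.Agent.N352.PF.STR331.str Pool.Agent.N75.PF.cu Pool.Agent.N364.PF.cl
      Pool.Agent.N195.PF.pf)
    Pool.Agent.N195.PF.dscp Pool.Agent.N823.PF.gf Pool.Agent.N195.PF.pf F 1 le_rfl K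
  refine ⟨W, f₁, hK, c, hc, fun u => ⟨goodF_scl u hf, fun S 𝔮 r P hS => ?_⟩⟩
  obtain ⟨B₀, hB⟩ := h (Pool.Agent.H68K.PR.scl u f₁) (goodF_scl u hf) S 𝔮 r P hS
  exact ⟨B₀, fun B hBB => hB B hBB⟩

end Pool.Agent.H72P.PR
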