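import Pool.Agent.H72P.PR.Res
import Pool.Agent.H68K.PR.Stm
import Pool.Agent.N31.PF.Int

/-!
# PR/ODD: odd primes
-/

set_option autoImplicit false
set_option linter.all false

open WithZero Polynomial IsDedekindDomain NumberField
open scoped Classical

namespace Pool.Agent.H72P.PR

open Pool.Agent.N883.SX.HenBase (vv vv_emb vv_int vv_lt vv_one)
open Pool.Agent.N783.PF
open Pool.Agent.N644.PQ.HunB (Mu)
open Pool.Agent.N874.PP (Ev Sq1 U0)
open Pool.Agent.N874.PM (PLoc)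
open Pool.Agent.H68K.PR

section basics

variable {F : Type} [Field F] [NumberField F]

/-- the polynomial over the completion -/
noncomputable abbrev fK (w : HeightOneSpectrum (𝓞 F)) (f : (𝓞 F)[X]) :
    (w.adicCompletion F)[X] := (fF f).map (algebraMap F (w.adicCompletion F))

theorem dsc_eq {f : (𝓞 F)[X]} (hf : f.Monic) (hd : f.natDegree = 3) (h2 : f.coeff 2 = 0) :
    dsc 1 f = 4 * f.coeff 1 ^ 3 + 27 * f.coeff 0 ^ 2 := by
  have hdeg : f.degree = 3 := by rw [hf.ne_zero |> degree_eq_natDegree, hd]; rfl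
  have h3 : f.coeff 3 = 1 := by rw [← hd]; exact hf
  have e := resultant_deriv (f := f) (by rw [hdeg]; norm_num)
  have e1 : dsc 1 f = resultant f (derivative f) f.natDegree (f.natDegree - 1) := by
    rw [hd]
    rfl
  rw [e1, e, hd, discr_of_degree_eq_three hdeg, hf.leadingCoeff, h2, h3]
  norm_num
  ring

/-- the reduction of `f` is not a cube -/
theorem not_cube {f : (𝓞 F)[X]} (hf : f.Monic) (hd : f.natDegree = 3) (h2 : f.coeff 2 = 0)
    (hsq : SqF 1 f) (w : HeightOneSpectrum (𝓞 F)) {D : ℕ} (hD : (D : 𝓞 F) ∉ w.asIdeal) :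
    ¬ ∃ a, rd w.asIdeal (f.scaleRoots (D : 𝓞 F)) = (X - C a) ^ 3 := by
  rintro ⟨a, ha⟩
  have hexp : (X - C a) ^ 3 = X ^ 3 - C (3 * a) * X ^ 2 + C (3 * a ^ 2) * X - C (a ^ 3) := by
    simp only [C_mul, C_pow, map_ofNat]
    ring
  rw [hexp] at ha
  have c2 : 3 * a = 0 := by
    have h := congrArg (fun p => coeff p 2) ha
    simp only [coeff_map, coeff_scaleRoots, h2, zero_mul, map_zero, coeff_sub, coeff_add,
      coeff_C_mul, coeff_X_pow, coeff_X, coeff_C] at h
    norm_num at h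
    rcases h with h | h
    · rw [h, zero_mul]
    · rw [h, mul_zero]
  have c1 : Ideal.Quotient.mk w.asIdeal (f.coeff 1 * (D : 𝓞 F) ^ 2) = 0 := by
    have h := congrArg (fun p => coeff p 1) ha
    simp only [coeff_map, coeff_scaleRoots, hd, coeff_sub, coeff_add, coeff_C_mul, coeff_X_pow,
      coeff_X, coeff_C] at h
    norm_num at h
    rw [map_mul, map_pow, map_natCast, h]
    linear_combination a * c2
  have c0 : Ideal.Quotient.mk w.asIdeal (f.coeff 0 * (D : 𝓞 F) ^ 3) = - a ^ 3 := by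
    have h := congrArg (fun p => coeff p 0) ha
    simp only [coeff_map, coeff_scaleRoots, hd, coeff_sub, coeff_add, coeff_C_mul, coeff_X_pow,
      coeff_X, coeff_C] at h
    norm_num at h
    rw [map_mul, map_pow, map_natCast, h]
  have c1' : f.coeff 1 ∈ w.asIdeal := by
    rw [Ideal.Quotient.eq_zero_iff_mem] at c1
    rcases w.isPrime.mem_or_mem c1 with h | h
    · exact h
    · exact absurd (w.isPrime.mem_of_pow_mem _ h) hD
  have h3B : (3 : 𝓞 F) * f.coeff 0 ∈ w.asIdeal := by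
    have h : 3 * (f.coeff 0 * (D : 𝓞 F) ^ 3) ∈ w.asIdeal := by
      rw [← Ideal.Quotient.eq_zero_iff_mem, map_mul, c0, map_ofNat]
      linear_combination (-a ^ 2) * c2
    rw [← mul_assoc] at h
    rcases w.isPrime.mem_or_mem h with h | h
    · exact h
    · exact absurd (w.isPrime.mem_of_pow_mem _ h) hD
  refine hsq w.asIdeal w.isPrime w.ne_bot ?_
  rw [dsc_eq hf hd h2]
  refine Ideal.add_mem _ ?_ ?_
  · have e : 4 * f.coeff 1 ^ 3 = 4 * f.coeff 1 * (f.coeff 1 ^ 2) := by ring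
    rw [e]
    exact Ideal.mul_mem_left _ _ (Ideal.pow_mem_pow c1' 2)
  · have e : 27 * f.coeff 0 ^ 2 = 3 * (3 * f.coeff 0) ^ 2 := by ring
    rw [e]
    exact Ideal.mul_mem_left _ _ (Ideal.pow_mem_pow h3B 2)

variable (w : HeightOneSpectrum (𝓞 F))

/-- the local theorem -/
theorem loc (h2 : (2 : 𝓞 F) ∉ w.asIdeal) {f u : (𝓞 F)[X]} (hf : f.Monic)
    (hd : f.natDegree = 3) (hcube : ¬ ∃ a, rd w.asIdeal f = (X - C a) ^ 3)
    (hc : IsCoprime (rd w.asIdeal u) (rd w.asIdeal f))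
    (hN : IsSquare (Mu 1 f u).det) :
    (∃ g : (w.adicCompletion F)[X], fK w f ∣ fK w u - g ^ 2) ∨
    ∃ (x y : w.adicCompletion F) (g : (w.adicCompletion F)[X]), y ≠ 0 ∧
      y ^ 2 = (fK w f).eval x ∧ fK w f ∣ (C x - X) * fK w u - g ^ 2 := by
  letI : Field (𝓞 F ⧸ w.asIdeal) := Ideal.Quotient.field w.asIdeal
  haveI : Finite (𝓞 F ⧸ w.asIdeal) := Ideal.finiteQuotientOfFreeOfNeBot _ w.ne_bot
  obtain ⟨ρ, hρs, hρk, hρa⟩ := exists_res w
  obtain ⟨π, hπ0, hπ1, hπd⟩ := exists_unif w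
  haveI := adic π hπ0 hπ1
  have hker : ∀ x, ρ x = 0 ↔ π ∣ x := fun x => (hρk x).trans (hπd x)
  have hunit : ∀ x : OK (w.adicCompletion F), ρ x ≠ 0 → IsUnit x := by
    intro x hx
    rw [Ne, hρk, not_lt] at hx
    rw [isUnit_iff_dvd_one, dvd_iff_val]
    show vK _ (1 : w.adicCompletion F) ≤ _
    rw [map_one]
    exact hx
  have hcomp : ρ.comp (iO w) = Ideal.Quotient.mk w.asIdeal := RingHom.ext hρa
  have hmap : ∀ p : (𝓞 F)[X], (p.map (iO w)).map ρ = rd w.asIdeal p := by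
    intro p
    rw [Polynomial.map_map, hcomp]
  have hsub : ∀ p : (𝓞 F)[X], (p.map (iO w)).map (OK (w.adicCompletion F)).subtype = fK w p := by
    intro p
    rw [Polynomial.map_map, fK, fF, Polynomial.map_map]
    rfl
  have h2k : (2 : 𝓞 F ⧸ w.asIdeal) ≠ 0 := by
    intro h
    apply h2
    rw [← Ideal.Quotient.eq_zero_iff_mem, map_ofNat]
    exact h
  have hπ0' : π ≠ 0 := fun h => hπ0 (by rw [h]; rfl)
  have hdr : (rd w.asIdeal f).natDegree = 3 := by rw [hf.natDegree_map, hd]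
  have key := lt0 ρ π hρs hker hunit h2k hπ0' (f := f.map (iO w)) (u := u.map (iO w))
    (hf.map _) (by rw [hf.natDegree_map, hd]) (by rw [hmap]; exact hcube)
    (by rw [hmap, hmap]; exact hc) (by
      rw [hmap, hmap, norm_mk (g := 1) (hf.map _) hdr, Mu_map _ hf]
      exact hN.map _)
  rcases key with ⟨g, hg⟩ | ⟨x, y, g, hy0, hy, hg⟩
  · left
    refine ⟨g.map (OK (w.adicCompletion F)).subtype, ?_⟩
    have h := Polynomial.map_dvd (OK (w.adicCompletion F)).subtype hg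
    rwa [Polynomial.map_sub, Polynomial.map_pow, hsub, hsub] at h
  · right
    refine ⟨x, y, g.map (OK (w.adicCompletion F)).subtype, fun h => hy0 (Subtype.ext h), ?_, ?_⟩
    · have h := congrArg (OK (w.adicCompletion F)).subtype hy
      rw [← eval_map_apply, hsub, map_pow] at h
      exact h
    · have h := Polynomial.map_dvd (OK (w.adicCompletion F)).subtype hg
      rwa [Polynomial.map_sub, Polynomial.map_pow, Polynomial.map_mul, Polynomial.map_sub, map_C,
        map_X, hsub, hsub] at h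

end basics

section cls

variable {F L : Type} [Field F] [NumberField F] [Field L] [NumberField L] [Algebra F L]

theorem fF_scale {f : (𝓞 F)[X]} (hf : f.Monic) (D : ℕ) :
    fF (f.scaleRoots (D : 𝓞 F)) = (fF f).scaleRoots (D : F) := by
  rw [fF, map_scaleRoots _ _ _ (by rw [hf.leadingCoeff, map_one]; exact one_ne_zero), map_natCast]

theorem isGen_scale {g : ℕ} {f : (𝓞 F)[X]} {θ : L} (hG : IsGen g f θ) {D : ℕ} (hD : D ≠ 0) :
    IsGen g (f.scaleRoots (D : 𝓞 F)) ((D : L) * θ) where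
  mon := (monic_scaleRoots_iff _).mpr hG.mon
  deg := by rw [natDegree_scaleRoots, hG.deg]
  root := by
    rw [fF_scale hG.mon]
    have h2 := scaleRoots_aeval_eq_zero (r := (D : F)) hG.root
    rwa [map_natCast] at h2
  rank := hG.rank
  gen := by
    intro x
    obtain ⟨c, hc⟩ := hG.gen x
    refine ⟨fun i => c i / (D : F) ^ (i : ℕ), ?_⟩
    conv_lhs => rw [hc]
    refine Finset.sum_congr rfl fun i _ => ?_
    have hDL : (D : L) ≠ 0 := by exact_mod_cast hD
    rw [map_div₀, map_pow, map_natCast, mul_pow]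
    field_simp

/-- the data of a class with respect to a unit -/
theorem cls {f : (𝓞 F)[X]} {θ : L} (hG : IsGen 1 f θ) (w : HeightOneSpectrum (𝓞 F))
    {h s : F[X]} {u u' : (𝓞 F)[X]} {m : 𝓞 F} (hm : m ∉ w.asIdeal)
    (h1 : aeval θ h = (aeval θ s) ^ 2 * aeval θ (fF u))
    (h2 : aeval θ (fF u) * aeval θ (fF u') = algebraMap F L (m : F)) (hα : aeval θ h ≠ 0)
    (hN : IsSquare (Algebra.norm F (aeval θ h))) :
    fF f ∣ h - s ^ 2 * fF u ∧ IsCoprime (rd w.asIdeal u) (rd w.asIdeal f) ∧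
      IsSquare (Mu 1 f u).det := by
  have hfm : f.Monic := hG.mon
  have hmin := Pool.Agent.N747.PF.minp hG
  have hinj : Function.Injective (algebraMap (𝓞 F) F) := IsFractionRing.injective (𝓞 F) F
  have d1 : fF f ∣ h - s ^ 2 * fF u := by
    rw [← hmin]
    refine minpoly.dvd F θ ?_
    rw [map_sub, map_mul, map_pow, ← h1, sub_self]
  have d2 : f ∣ u * u' - C m := by
    have e1 : aeval θ (fF (u * u' - C m)) = 0 := by
      rw [fF, Polynomial.map_sub, Polynomial.map_mul, Polynomial.map_C, map_sub, map_mul, aeval_C,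
        sub_eq_zero]
      exact h2
    have e3 := minpoly.dvd F θ e1
    rw [hmin] at e3
    exact (Polynomial.map_dvd_map (algebraMap (𝓞 F) F) hinj hfm).1 e3
  refine ⟨d1, ?_, ?_⟩
  · letI : Field (𝓞 F ⧸ w.asIdeal) := Ideal.Quotient.field w.asIdeal
    obtain ⟨q, hq⟩ := Polynomial.map_dvd (Ideal.Quotient.mk w.asIdeal) d2
    have hm0 : Ideal.Quotient.mk w.asIdeal m ≠ 0 := by
      rwa [Ne, Ideal.Quotient.eq_zero_iff_mem]
    have hC : C (Ideal.Quotient.mk w.asIdeal m)⁻¹ * C (Ideal.Quotient.mk w.asIdeal m) =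
        (1 : (𝓞 F ⧸ w.asIdeal)[X]) := by
      rw [← C_mul, inv_mul_cancel₀ hm0, C_1]
    refine ⟨C (Ideal.Quotient.mk w.asIdeal m)⁻¹ * u'.map (Ideal.Quotient.mk w.asIdeal),
      -(C (Ideal.Quotient.mk w.asIdeal m)⁻¹ * q), ?_⟩
    rw [Polynomial.map_sub, Polynomial.map_mul, map_C] at hq
    linear_combination C (Ideal.Quotient.mk w.asIdeal m)⁻¹ * hq + hC
  · have e1 : Algebra.norm F (aeval θ h) =
        (Algebra.norm F (aeval θ s)) ^ 2 * Algebra.norm F (aeval θ (fF u)) := by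
      rw [h1, map_mul, map_pow]
    have hs0 : Algebra.norm F (aeval θ s) ≠ 0 := by
      rw [Algebra.norm_ne_zero_iff]
      intro h0
      rw [h0] at h1
      exact hα (by rw [h1]; ring)
    obtain ⟨r, hr⟩ := hN
    have e2 : Algebra.norm F (aeval θ (fF u)) = (r / Algebra.norm F (aeval θ s)) ^ 2 := by
      rw [div_pow, eq_div_iff (pow_ne_zero 2 hs0), mul_comm, ← e1, hr, sq]
    have e3 : Algebra.norm F (aeval θ (fF u)) = algebraMap (𝓞 F) F (Mu 1 f u).det := by
      rw [Pool.Agent.N747.PF.norm_eq hG, ← Mu_map _ hfm]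
    have e4 : IsIntegral (𝓞 F) (r / Algebra.norm F (aeval θ s)) := by
      refine IsIntegral.of_pow (n := 2) (by norm_num) ?_
      rw [← e2, e3]
      exact isIntegral_algebraMap
    obtain ⟨c, hc⟩ := IsIntegrallyClosed.isIntegral_iff.1 e4
    refine ⟨c, hinj ?_⟩
    rw [← e3, e2, map_mul, hc, sq]

/-- classes times squares -/
theorem ploc_of (w : HeightOneSpectrum (𝓞 F)) {A B : F} {f : (𝓞 F)[X]}
    (hf : fK w f = X ^ 3 + C (algebraMap F (w.adicCompletion F) A) * X +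
      C (algebraMap F (w.adicCompletion F) B)) {h s : F[X]} {u : (𝓞 F)[X]}
    (hd : fF f ∣ h - s ^ 2 * fF u)
    (hl : (∃ g : (w.adicCompletion F)[X], fK w f ∣ fK w u - g ^ 2) ∨
      ∃ (x y : w.adicCompletion F) (g : (w.adicCompletion F)[X]), y ≠ 0 ∧
      y ^ 2 = (fK w f).eval x ∧ fK w f ∣ (C x - X) * fK w u - g ^ 2) :
    PLoc (w.adicCompletion F) A B h := by
  unfold PLoc
  rw [← hf]
  have hd' := Polynomial.map_dvd (algebraMap F (w.adicCompletion F)) hd
  rw [Polynomial.map_sub, Polynomial.map_mul, Polynomial.map_pow] at hd'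
  obtain ⟨z, hz⟩ := hd'
  rcases hl with ⟨g, t, ht⟩ | ⟨x, y, g, hy0, hy, t, ht⟩
  · left
    refine ⟨s.map (algebraMap F (w.adicCompletion F)) * g,
      z + s.map (algebraMap F (w.adicCompletion F)) ^ 2 * t, ?_⟩
    linear_combination hz + s.map (algebraMap F (w.adicCompletion F)) ^ 2 * ht
  · right
    refine ⟨x, y, hy0, ?_, s.map (algebraMap F (w.adicCompletion F)) * g,
      (C x - X) * z + s.map (algebraMap F (w.adicCompletion F)) ^ 2 * t, ?_⟩
    · rw [hy, hf]
      simp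
    · linear_combination (C x - X) * hz + s.map (algebraMap F (w.adicCompletion F)) ^ 2 * ht

theorem fK_scale {f : (𝓞 F)[X]} (hf : f.Monic) (hd : f.natDegree = 3) (h2 : f.coeff 2 = 0)
    (w : HeightOneSpectrum (𝓞 F)) (D : ℕ) : fK w (f.scaleRoots (D : 𝓞 F)) =
      X ^ 3 + C (algebraMap F (w.adicCompletion F) ((f.coeff 1 : F) * (D : F) ^ 2)) * X +
      C (algebraMap F (w.adicCompletion F) ((f.coeff 0 : F) * (D : F) ^ 3)) := by
  have h3 : f.coeff 3 = 1 := by rw [← hd]; exact hf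
  have hm : (f.scaleRoots (D : 𝓞 F)).Monic := (monic_scaleRoots_iff _).mpr hf
  have hn : (f.scaleRoots (D : 𝓞 F)).natDegree = 3 := by rw [natDegree_scaleRoots, hd]
  have hK : (fK w (f.scaleRoots (D : 𝓞 F))).natDegree = 3 := by
    rw [fK, fF, (hm.map _).natDegree_map, hm.natDegree_map, hn]
  rw [(fK w (f.scaleRoots (D : 𝓞 F))).as_sum_range_C_mul_X_pow, hK]
  simp only [Finset.sum_range_succ, Finset.sum_range_zero, coeff_map, coeff_scaleRoots, hd, h2, h3]
  simp
  ring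

theorem aeval_scale {θ : L} (D : ℕ) (v : (𝓞 F)[X]) :
    aeval ((D : L) * θ) (fF (C ((D : 𝓞 F) ^ v.natDegree) * v.scaleRoots (D : 𝓞 F))) =
      ((D : L) ^ v.natDegree) ^ 2 * aeval θ (fF v) := by
  have h1 := scaleRoots_eval₂_mul (p := v) ((algebraMap F L).comp (algebraMap (𝓞 F) F)) θ
    (D : 𝓞 F)
  have h2 : ((algebraMap F L).comp (algebraMap (𝓞 F) F)) (D : 𝓞 F) = (D : L) := map_natCast _ _
  rw [h2] at h1
  have h3 : ∀ (t : L) (p : (𝓞 F)[X]), aeval t (fF p) =
      eval₂ ((algebraMap F L).comp (algebraMap (𝓞 F) F)) t p := by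
    intro t p
    rw [fF, aeval_def, eval₂_map]
  rw [h3, eval₂_mul, h1, eval₂_C, map_pow, h2, ← h3]
  ring

/-- S_ODD -/
theorem odd : S_ODD := by
  intro F L _ _ _ _ _ f θ hG hsq hc2 w hw2 D hD h hα hN hev
  have hD0 : D ≠ 0 := by
    rintro rfl
    rw [Nat.cast_zero] at hD
    exact hD w.asIdeal.zero_mem
  have hDL : (D : L) ≠ 0 := by exact_mod_cast hD0
  have hd3 : f.natDegree = 3 := hG.deg
  have hG' := isGen_scale hG hD0
  obtain ⟨s0, v, v', m, hm, h1, h2⟩ :=
    Pool.Agent.N747.PF.unit_at Pool.Agent.N31.PF.int hG hsq w hα hev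
  obtain ⟨s, hs⟩ : ∃ s : F[X], aeval ((D : L) * θ) s * (D : L) ^ v.natDegree = aeval θ s0 := by
    refine ⟨C (((D : F) ^ v.natDegree)⁻¹) * s0.comp (C (D : F)⁻¹ * X), ?_⟩
    rw [map_mul, aeval_C, aeval_comp, map_mul, aeval_C, aeval_X, map_inv₀, map_inv₀, map_pow,
      map_natCast]
    have e : (D : L)⁻¹ * ((D : L) * θ) = θ := by field_simp
    rw [e]
    field_simp
  obtain ⟨hdv, hcop, hsqn⟩ := cls hG' w (h := h) (s := s)
    (u := C ((D : 𝓞 F) ^ v.natDegree) * v.scaleRoots (D : 𝓞 F))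
    (u' := C ((D : 𝓞 F) ^ v'.natDegree) * v'.scaleRoots (D : 𝓞 F))
    (m := ((D : 𝓞 F) ^ v.natDegree) ^ 2 * ((D : 𝓞 F) ^ v'.natDegree) ^ 2 * m) (by
      intro hmem
      rcases w.isPrime.mem_or_mem hmem with h3 | h3
      · rcases w.isPrime.mem_or_mem h3 with h4 | h4
        · exact hD (w.isPrime.mem_of_pow_mem _ (w.isPrime.mem_of_pow_mem _ h4))
        · exact hD (w.isPrime.mem_of_pow_mem _ (w.isPrime.mem_of_pow_mem _ h4))
      · exact hm h3) (by
      rw [aeval_scale, h1, ← hs]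
      ring) (by
      rw [aeval_scale, aeval_scale]
      have e : algebraMap F L (((((D : 𝓞 F) ^ v.natDegree) ^ 2 * ((D : 𝓞 F) ^ v'.natDegree) ^ 2 * m :
          𝓞 F)) : F) = ((D : L) ^ v.natDegree) ^ 2 * ((D : L) ^ v'.natDegree) ^ 2 *
          algebraMap F L (m : F) := by
        simp
      rw [e, ← h2]
      ring) hα hN
  refine ploc_of w (fK_scale hG.mon hd3 hc2 w D) hdv ?_
  exact loc w hw2 hG'.mon hG'.deg (not_cube hG.mon hd3 hc2 hsq w hD) hcop hsqn

end cls

end Pool.Agent.H72P.PR
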