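import Pool.Agent.H72P.PR.Sqa

/-!
# PR/SQJ: the primes over `q ∈ J`
-/

set_option autoImplicit false
set_option linter.all false

open WithZero Polynomial IsDedekindDomain NumberField
open scoped Classical

namespace Pool.Agent.H72P.PR

open Pool.Agent.N883.SX.HenBase (vv vv_emb vv_int vv_lt vv_one)
open Pool.Agent.N783.PF
open Pool.Agent.N644.PQ.HunB (Mu)
open Pool.Agent.N874.PP (Ev Sq1 U0)
open Pool.Agent.N874.PM (PLoc)
open Pool.Agent.H68K.PR
open Pool.Agent.N73.PF (ev ev_L ev_f ev_X ev_C ev_surj ex_psi eq_ker mem_or map_eq_of_cg ov_iff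
  theta_ex hbar algMap_coe)
open Pool.Agent.N31.PF (int)

section main

variable {F L : Type} [Field F] [NumberField F] [Field L] [NumberField L] [Algebra F L]
  {f : (𝓞 F)[X]} {θ : L}

/-- the norm of `x - θ` -/
theorem norm_x_sub {g : ℕ} (hG : IsGen g f θ) (x : F) :
    Algebra.norm F (algebraMap F L x - θ) = (fF f).eval x := by
  have hmin := Pool.Agent.N747.PF.minp hG
  have h1 := charpoly_leftMulMatrix (Pool.Agent.N747.PF.pb hG)
  have h2 : (Pool.Agent.N747.PF.pb hG).gen = θ := rfl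
  rw [h2, hmin] at h1
  rw [← h1, Matrix.eval_charpoly, Algebra.norm_eq_matrix_det (Pool.Agent.N747.PF.pb hG).basis,
    map_sub]
  congr 2
  rw [AlgHom.commutes]
  rfl

/-- irreducible reduction -/
theorem t0 (hG : IsGen 1 f θ) (hsq : SqF 1 f) (w : HeightOneSpectrum (𝓞 F))
    (hw2 : (2 : 𝓞 F) ∉ w.asIdeal) (hirr : Irreducible (rd w.asIdeal f)) {h : F[X]}
    (hα : aeval θ h ≠ 0) (hN : IsSquare (Algebra.norm F (aeval θ h)))
    (hev : ∀ 𝔓 : HeightOneSpectrum (𝓞 L), Ov w.asIdeal 𝔓 → Ev 𝔓 (aeval θ h)) :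
    ∃ g : (w.adicCompletion F)[X],
      fK w f ∣ h.map (algebraMap F (w.adicCompletion F)) - g ^ 2 := by
  obtain ⟨s, u, u', m, hm, h1, h2⟩ := Pool.Agent.N747.PF.unit_at int hG hsq w hα hev
  refine triv hG w hw2 hm h1 h2 fun hc => ?_
  have hd := det_sq hG w h1 hα (hN.map _)
  letI : Field (𝓞 F ⧸ w.asIdeal) := Ideal.Quotient.field w.asIdeal
  haveI : Finite (𝓞 F ⧸ w.asIdeal) := Ideal.finiteQuotientOfFreeOfNeBot _ w.ne_bot
  have h2k : (2 : 𝓞 F ⧸ w.asIdeal) ≠ 0 := by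
    intro h
    apply hw2
    rw [← Ideal.Quotient.eq_zero_iff_mem, map_ofNat]
    exact h
  refine sq_of_irr h2k hirr hc ?_
  rw [norm_mk (g := 1) (hG.mon.map _) (by rw [hG.mon.natDegree_map, hG.deg]), Mu_map _ hG.mon]
  exact hd

/-- reduction `X r` -/
theorem t1 (hG : IsGen 1 f θ) (hsq : SqF 1 f) (w : HeightOneSpectrum (𝓞 F))
    (hw2 : (2 : 𝓞 F) ∉ w.asIdeal) {r : (𝓞 F)[X]} (hr : r.Monic) (hrd : r.natDegree = 2)
    (hirr : Irreducible (rd w.asIdeal r)) (hcg : Cg w.asIdeal f (X * r)) {h : F[X]}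
    (hα : aeval θ h ≠ 0)
    (hN : IsSquare (algebraMap F (w.adicCompletion F) (Algebra.norm F (aeval θ h))))
    (hev : ∀ 𝔓 : HeightOneSpectrum (𝓞 L), Ov w.asIdeal 𝔓 → Ev 𝔓 (aeval θ h))
    {𝔔 : HeightOneSpectrum (𝓞 L)} (hov : Ov w.asIdeal 𝔔) (hθ : 𝔔.valuation L θ = 1)
    (hS : Sq1 𝔔 (aeval θ h)) :
    ∃ g : (w.adicCompletion F)[X],
      fK w f ∣ h.map (algebraMap F (w.adicCompletion F)) - g ^ 2 := by
  obtain ⟨s, u, u', m, hm, h1, h2⟩ := Pool.Agent.N747.PF.unit_at int hG hsq w hα hev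
  refine triv hG w hw2 hm h1 h2 fun hc => ?_
  have hd := det_sq hG w h1 hα hN
  letI : Field (𝓞 F ⧸ w.asIdeal) := Ideal.Quotient.field w.asIdeal
  haveI : Finite (𝓞 F ⧸ w.asIdeal) := Ideal.finiteQuotientOfFreeOfNeBot _ w.ne_bot
  have h2k : (2 : 𝓞 F ⧸ w.asIdeal) ≠ 0 := by
    intro h
    apply hw2
    rw [← Ideal.Quotient.eq_zero_iff_mem, map_ofNat]
    exact h
  have hmax : w.asIdeal.IsMaximal := w.isMaximal
  have hfb : rd w.asIdeal f = X * rd w.asIdeal r := by
    rw [map_eq_of_cg hcg, rd, Polynomial.map_mul, Polynomial.map_X]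
  obtain ⟨t, ht⟩ := theta_ex hG
  obtain ⟨ψ, hψ⟩ := ex_psi int hG hsq ht w.asIdeal (rd w.asIdeal r)
    (by rw [hfb]; exact ⟨X, X_mul⟩)
  have htn : t ∉ 𝔔.asIdeal := by
    rw [← ht] at hθ
    exact 𝔔.valuation_eq_one_iff_notMem.mp hθ
  have hker : 𝔔.asIdeal = RingHom.ker ψ :=
    eq_ker int hG hsq ht hmax hirr hψ hov ((mem_or hG ht hcg hov).resolve_left htn)
  obtain ⟨hbd, hbX⟩ := hbar hmax (le_refl 1) hr hrd
  have hr0 : (rd w.asIdeal r).eval 0 ≠ 0 := by
    intro h0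
    have h3 : X ∣ rd w.asIdeal r := by
      rw [X_dvd_iff, coeff_zero_eq_eval_zero]
      exact h0
    have h4 := (irreducible_X.dvd_symm hirr) h3
    exact hbX h4
  have hu : ev t u ∉ 𝔔.asIdeal := by
    rw [hker, RingHom.mem_ker, hψ, AdjoinRoot.mk_eq_zero]
    intro h3
    rw [hfb] at hc
    obtain ⟨a, b, hab⟩ := hc.of_mul_right_right
    refine hirr.not_isUnit (isUnit_of_dvd_one ?_)
    rw [← hab]
    exact dvd_add (h3.mul_left _) (dvd_mul_left _ _)
  have hs0 : aeval θ s ≠ 0 := by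
    intro h0
    rw [h0] at h1
    exact hα (by rw [h1]; ring)
  have hSu : Sq1 𝔔 (algebraMap (𝓞 L) L (ev t u)) := by
    rw [ev_L ht]
    rw [h1, mul_comm, Pool.Agent.N622.PJ.sq1_mul_sq hs0] at hS
    exact hS
  obtain ⟨z, hz⟩ := (Pool.Agent.N545.PF.sq1_iff hu).mp hSu
  obtain ⟨p, rfl⟩ := ev_surj int hG hsq ht z
  have hp : rd w.asIdeal r ∣ rd w.asIdeal u - (rd w.asIdeal p) ^ 2 := by
    rw [hker, RingHom.mem_ker, ← map_pow, ← map_sub, hψ, AdjoinRoot.mk_eq_zero] at hz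
    have e : rd w.asIdeal (u - p ^ 2) = rd w.asIdeal u - (rd w.asIdeal p) ^ 2 := by
      rw [rd, Polynomial.map_sub, Polynomial.map_pow]
    rwa [e] at hz
  rw [hfb] at hc ⊢
  refine sq_of_mul h2k (hr.map _) hirr hr0 hc ⟨_, hp⟩ ?_
  rw [← hfb, norm_mk (g := 1) (hG.mon.map _) (by rw [hG.mon.natDegree_map, hG.deg]),
    Mu_map _ hG.mon]
  exact hd

/-- substitution -/
theorem subst (hf : f.Monic) (hd : f.natDegree = 3) (h2 : f.coeff 2 = 0)
    (w : HeightOneSpectrum (𝓞 F)) {D : ℕ} (hD : D ≠ 0) {P : (w.adicCompletion F)[X]}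
    {g : (w.adicCompletion F)[X]}
    (hg : fK w f ∣ P.comp (C (D : w.adicCompletion F) * X) - g ^ 2) :
    fK w (f.scaleRoots (D : 𝓞 F)) ∣ P - (g.comp (C (D : w.adicCompletion F)⁻¹ * X)) ^ 2 := by
  have hDK : (D : w.adicCompletion F) ≠ 0 := by
    have h3 : (D : F) ≠ 0 := by exact_mod_cast hD
    have h4 := (_root_.map_ne_zero (algebraMap F (w.adicCompletion F))).mpr h3
    rwa [map_natCast] at h4
  have hCC : (C (D : w.adicCompletion F) : (w.adicCompletion F)[X]) *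
      C (D : w.adicCompletion F)⁻¹ = 1 := by
    rw [← C_mul, mul_inv_cancel₀ hDK, C_1]
  obtain ⟨z, hz⟩ := hg
  have h3 := congrArg (fun p => p.comp (C (D : w.adicCompletion F)⁻¹ * X)) hz
  simp only [sub_comp, mul_comp, pow_comp, comp_assoc, C_comp, X_comp] at h3
  rw [← mul_assoc, hCC, one_mul, comp_X] at h3
  have h4 : fK w (f.scaleRoots (D : 𝓞 F)) = C (D : w.adicCompletion F) ^ 3 *
      (fK w f).comp (C (D : w.adicCompletion F)⁻¹ * X) := by
    have h5 := fK_scale hf hd h2 w 1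
    rw [Nat.cast_one, scaleRoots_one] at h5
    have e1 : algebraMap F (w.adicCompletion F) ((f.coeff 1 : F) * (D : F) ^ 2) =
        algebraMap F (w.adicCompletion F) (f.coeff 1 : F) * (D : w.adicCompletion F) ^ 2 := by
      rw [map_mul, map_pow, map_natCast]
    have e0 : algebraMap F (w.adicCompletion F) ((f.coeff 0 : F) * (D : F) ^ 3) =
        algebraMap F (w.adicCompletion F) (f.coeff 0 : F) * (D : w.adicCompletion F) ^ 3 := by
      rw [map_mul, map_pow, map_natCast]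
    have e1' : algebraMap F (w.adicCompletion F) ((f.coeff 1 : F) * ((1 : ℕ) : F) ^ 2) =
        algebraMap F (w.adicCompletion F) (f.coeff 1 : F) := by
      rw [Nat.cast_one, one_pow, mul_one]
    have e0' : algebraMap F (w.adicCompletion F) ((f.coeff 0 : F) * ((1 : ℕ) : F) ^ 3) =
        algebraMap F (w.adicCompletion F) (f.coeff 0 : F) := by
      rw [Nat.cast_one, one_pow, mul_one]
    rw [e1', e0'] at h5
    rw [h5, fK_scale hf hd h2 w D, e1, e0]
    generalize (D : w.adicCompletion F) = δ at *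
    simp only [add_comp, mul_comp, pow_comp, X_comp, C_comp, C_mul, C_pow]
    linear_combination (-(C δ ^ 2 * C δ⁻¹ ^ 2 + C δ * C δ⁻¹ + 1) * X ^ 3 -
      C δ ^ 2 * C (algebraMap F (w.adicCompletion F) (f.coeff 1 : F)) * X) * hCC
  rw [h3, h4]
  refine ⟨C (D : w.adicCompletion F)⁻¹ ^ 3 * z.comp (C (D : w.adicCompletion F)⁻¹ * X), ?_⟩
  linear_combination (-(C (D : w.adicCompletion F) ^ 2 * C (D : w.adicCompletion F)⁻¹ ^ 2 +
      C (D : w.adicCompletion F) * C (D : w.adicCompletion F)⁻¹ + 1) *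
      ((fK w f).comp (C (D : w.adicCompletion F)⁻¹ * X) *
        z.comp (C (D : w.adicCompletion F)⁻¹ * X))) * hCC

end main

section approx

variable {F : Type} [Field F] [NumberField F] (w : HeightOneSpectrum (𝓞 F))

/-- the approximate root -/
theorem exists_x {A B D : 𝓞 F} (hA : A ∉ w.asIdeal) (hB : B ∈ w.asIdeal) (hD : D ∈ w.asIdeal) :
    ∃ x ∈ w.asIdeal, x ^ 3 + A * x + B - D * A ^ 2 ∈ w.asIdeal ^ 2 := by
  obtain ⟨e, he⟩ := w.isMaximal.exists_inv hA
  obtain ⟨z, hz, hez⟩ := he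
  refine ⟨-B * e + D * A, ?_, ?_⟩
  · exact Ideal.add_mem _ (Ideal.mul_mem_right _ _ (neg_mem hB)) (Ideal.mul_mem_right _ _ hD)
  · have hx : -B * e + D * A ∈ w.asIdeal :=
      Ideal.add_mem _ (Ideal.mul_mem_right _ _ (neg_mem hB)) (Ideal.mul_mem_right _ _ hD)
    have e1 : (-B * e + D * A) ^ 3 + A * (-B * e + D * A) + B - D * A ^ 2 =
        (-B * e + D * A) * (-B * e + D * A) ^ 2 + B * z := by
      linear_combination (-B) * hez
    rw [e1]
    refine Ideal.add_mem _ (Ideal.mul_mem_left _ _ (Ideal.pow_mem_pow hx 2)) ?_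
    rw [sq]
    exact Ideal.mul_mem_mul hB hz

/-- a square in the completion -/
theorem exists_sq (hw2 : (2 : 𝓞 F) ∉ w.asIdeal) {A D c : 𝓞 F} (hA : A ∉ w.asIdeal)
    (hD : w.valuation F (D : F) = exp (-1 : ℤ)) (hc : c - D * A ^ 2 ∈ w.asIdeal ^ 2) :
    ∃ y : w.adicCompletion F, y ≠ 0 ∧
      y ^ 2 = algebraMap F (w.adicCompletion F) ((D : F) * (c : F)) := by
  obtain ⟨ρ, hρs, hρk, hρa⟩ := exists_res w
  obtain ⟨π, hπ0, hπ1, hπd⟩ := exists_unif w
  haveI := adic π hπ0 hπ1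
  have hker : ∀ x, ρ x = 0 ↔ π ∣ x := fun x => (hρk x).trans (hπd x)
  have hunit : ∀ x : OK (w.adicCompletion F), ρ x ≠ 0 → IsUnit x := by
    intro x hx
    rw [Ne, hρk, not_lt] at hx
    rw [isUnit_iff_dvd_one, dvd_iff_val]
    show vK _ (1 : w.adicCompletion F) ≤ _
    rw [map_one]
    exact hx
  letI : Field (𝓞 F ⧸ w.asIdeal) := Ideal.Quotient.field w.asIdeal
  have h2k : (2 : 𝓞 F ⧸ w.asIdeal) ≠ 0 := by
    intro h
    apply hw2
    rw [← Ideal.Quotient.eq_zero_iff_mem, map_ofNat]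
    exact h
  have h2O : IsUnit (2 : OK (w.adicCompletion F)) := hunit 2 (by rwa [map_ofNat])
  obtain ⟨ω, hω⟩ : ∃ ω, ω = c - D * A ^ 2 := ⟨_, rfl⟩
  rw [← hω] at hc
  have hD0 : (D : F) ≠ 0 := by
    intro h
    rw [h, map_zero] at hD
    exact exp_ne_zero hD.symm
  have hωv : w.valuation F (ω : F) ≤ exp (-2 : ℤ) := by
    have h3 := (w.intValuation_le_pow_iff_mem ω 2).mpr hc
    rw [w.valuation_of_algebraMap]
    exact_mod_cast h3
  have hqv : w.valuation F ((ω : F) / (D : F)) < 1 := by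
    rw [map_div₀, hD]
    have h3 : exp (-2 : ℤ) / exp (-1 : ℤ) < (1 : WithZero (Multiplicative ℤ)) := by
      rw [← exp_sub, ← exp_zero, exp_lt_exp]
      norm_num
    refine lt_of_le_of_lt ?_ h3
    exact div_le_div_of_nonneg_right hωv zero_le
  have hqK : vK (w.adicCompletion F) (algebraMap F (w.adicCompletion F) ((ω : F) / (D : F))) < 1 :=
    (vv_emb w _).trans_lt hqv
  obtain ⟨η, hη⟩ : ∃ η : OK (w.adicCompletion F),
      (η : w.adicCompletion F) = algebraMap F (w.adicCompletion F) ((ω : F) / (D : F)) :=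
    ⟨⟨_, hqK.le⟩, rfl⟩
  have hρη : ρ η = 0 := by
    rw [hρk, hη]
    exact hqK
  have hρA : ρ (iO w A) ≠ 0 := by
    rw [hρa, Ne, Ideal.Quotient.eq_zero_iff_mem]
    exact hA
  obtain ⟨g, hg⟩ := sqlift0 ρ π hker h2O (u := iO w A ^ 2 + η) (s := iO w A) (by
    apply hunit
    rw [map_add, hρη, add_zero, map_pow]
    exact pow_ne_zero 2 hρA) (by
    rw [map_add, hρη, add_zero, map_pow])
  have hg0 : (g : w.adicCompletion F) ≠ 0 := by
    intro h3
    have h4 : g = 0 := Subtype.ext h3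
    have h5 := congrArg ρ hg
    rw [map_add, hρη, add_zero, map_pow, h4] at h5
    exact pow_ne_zero 2 hρA (by rw [h5]; simp)
  refine ⟨algebraMap F (w.adicCompletion F) (D : F) * g, mul_ne_zero ((_root_.map_ne_zero _).mpr hD0) hg0, ?_⟩
  have hg' : (g : w.adicCompletion F) ^ 2 =
      algebraMap F (w.adicCompletion F) (A : F) ^ 2 +
        algebraMap F (w.adicCompletion F) ((ω : F) / (D : F)) := by
    rw [← hη]
    have h3 := congrArg (fun x : OK (w.adicCompletion F) => (x : w.adicCompletion F)) hg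
    exact h3.symm
  have hcF : (c : F) = (ω : F) + (D : F) * (A : F) ^ 2 := by
    have h3 : c = ω + D * A ^ 2 := by rw [hω]; ring
    rw [h3]
    simp
  have hDK : algebraMap F (w.adicCompletion F) (D : F) ≠ 0 := (_root_.map_ne_zero _).mpr hD0
  rw [mul_pow, hg', hcF, map_mul (algebraMap F (w.adicCompletion F)),
    map_add (algebraMap F (w.adicCompletion F)), map_mul (algebraMap F (w.adicCompletion F)),
    map_pow (algebraMap F (w.adicCompletion F)), map_div₀ (algebraMap F (w.adicCompletion F))]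
  generalize algebraMap F (w.adicCompletion F) (D : F) = d at *
  generalize algebraMap F (w.adicCompletion F) (A : F) = a at *
  generalize algebraMap F (w.adicCompletion F) (ω : F) = b at *
  field_simp
  ring

end approx

section final

variable {F L : Type} [Field F] [NumberField F] [Field L] [NumberField L] [Algebra F L]

theorem ev_of_sq1 {𝔓 : HeightOneSpectrum (𝓞 L)} {x : L} (h : Sq1 𝔓 x) : Ev 𝔓 x := by
  obtain ⟨s, hs⟩ := h
  refine ⟨s, ?_⟩
  have h1 : 𝔓.valuation L (x - (x - s ^ 2)) = 𝔓.valuation L x :=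
    Valuation.map_sub_eq_of_lt_left _ hs
  rw [sub_sub_cancel, map_pow] at h1
  exact h1.symm

theorem ev_mul {𝔓 : HeightOneSpectrum (𝓞 L)} {x y : L} (hx : Ev 𝔓 x) (hy : Ev 𝔓 y) :
    Ev 𝔓 (x * y) := by
  obtain ⟨a, ha⟩ := hx
  obtain ⟨b, hb⟩ := hy
  exact ⟨a * b, by rw [map_mul, map_mul, ha, hb, mul_pow]⟩

theorem fF_eq {f : (𝓞 F)[X]} (hf : f.Monic) (hd : f.natDegree = 3) (h2 : f.coeff 2 = 0) :
    fF f = X ^ 3 + C (f.coeff 1 : F) * X + C (f.coeff 0 : F) := by
  have h3 : f.coeff 3 = 1 := by rw [← hd]; exact hf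
  have hK : (fF f).natDegree = 3 := by rw [fF, hf.natDegree_map, hd]
  rw [(fF f).as_sum_range_C_mul_X_pow, hK]
  simp only [Finset.sum_range_succ, Finset.sum_range_zero, coeff_map, h2, h3]
  simp
  ring

/-- the valuation of `x - θ` at the small prime -/
theorem val_small {θ : L} {𝔓 : HeightOneSpectrum (𝓞 L)} {a b x d : L}
    (hroot : θ ^ 3 + a * θ + b = 0) (hθ : 𝔓.valuation L θ < 1) (hx : 𝔓.valuation L x < 1)
    (ha : 𝔓.valuation L a = 1)
    (hc : 𝔓.valuation L (x ^ 3 + a * x + b - d * a ^ 2) < 𝔓.valuation L d) :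
    𝔓.valuation L (x - θ) = 𝔓.valuation L d := by
  have h1 : 𝔓.valuation L (x ^ 3 + a * x + b) = 𝔓.valuation L d := by
    have e : x ^ 3 + a * x + b = d * a ^ 2 + (x ^ 3 + a * x + b - d * a ^ 2) := by ring
    have h2 : 𝔓.valuation L (d * a ^ 2) = 𝔓.valuation L d := by
      rw [map_mul, map_pow, ha, one_pow, mul_one]
    rw [e, Valuation.map_add_eq_of_lt_left _ (by rw [h2]; exact hc), h2]
  have h2 : x ^ 3 + a * x + b = (x - θ) * (x * x + x * θ + θ * θ + a) := by
    linear_combination hroot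
  have h3 : 𝔓.valuation L (x * x + x * θ + θ * θ + a) = 1 := by
    have h4 : 𝔓.valuation L (x * x + x * θ + θ * θ) < 1 := by
      refine Valuation.map_add_lt _ (Valuation.map_add_lt _ ?_ ?_) ?_ <;> rw [map_mul]
      · exact mul_lt_one_of_nonneg_of_lt_one_left zero_le hx hx.le
      · exact mul_lt_one_of_nonneg_of_lt_one_left zero_le hx hθ.le
      · exact mul_lt_one_of_nonneg_of_lt_one_left zero_le hθ hθ.le
    rw [Valuation.map_add_eq_of_lt_right _ (by rw [ha]; exact h4), ha]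
  rw [h2, map_mul, h3, mul_one] at h1
  exact h1

/-- the second alternative -/
theorem ploc_right {f : (𝓞 F)[X]} (hf : f.Monic) (hd : f.natDegree = 3) (h2 : f.coeff 2 = 0)
    (w : HeightOneSpectrum (𝓞 F)) {D : ℕ} (hD : D ≠ 0) {h : F[X]} {x : 𝓞 F}
    {y : w.adicCompletion F} (hy0 : y ≠ 0)
    (hy : y ^ 2 = algebraMap F (w.adicCompletion F)
      ((D : F) * ((x ^ 3 + f.coeff 1 * x + f.coeff 0 : 𝓞 F) : F)))
    {g : (w.adicCompletion F)[X]}
    (hg : fK w f ∣ ((C ((D : F) * (x : F)) - C (D : F) * X) *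
      h.comp (C (D : F) * X)).map (algebraMap F (w.adicCompletion F)) - g ^ 2) :
    PLoc (w.adicCompletion F) ((f.coeff 1 : F) * (D : F) ^ 2) ((f.coeff 0 : F) * (D : F) ^ 3) h := by
  have hDF : (D : F) ≠ 0 := by exact_mod_cast hD
  have hDK : (D : w.adicCompletion F) ≠ 0 := by
    have h4 := (_root_.map_ne_zero (algebraMap F (w.adicCompletion F))).mpr hDF
    rwa [map_natCast] at h4
  right
  refine ⟨algebraMap F (w.adicCompletion F) ((D : F) * (x : F)), (D : w.adicCompletion F) * y,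
    mul_ne_zero hDK hy0, ?_, g.comp (C (D : w.adicCompletion F)⁻¹ * X), ?_⟩
  · have e1 : ((x ^ 3 + f.coeff 1 * x + f.coeff 0 : 𝓞 F) : F) =
        (x : F) ^ 3 + (f.coeff 1 : F) * (x : F) + (f.coeff 0 : F) := by simp
    rw [mul_pow, hy, e1]
    have key : (D : F) ^ 2 * ((D : F) * ((x : F) ^ 3 + (f.coeff 1 : F) * (x : F) +
        (f.coeff 0 : F))) = ((D : F) * (x : F)) ^ 3 + (f.coeff 1 : F) * (D : F) ^ 2 *
        ((D : F) * (x : F)) + (f.coeff 0 : F) * (D : F) ^ 3 := by ring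
    have key2 := congrArg (algebraMap F (w.adicCompletion F)) key
    simp only [map_mul, map_add, map_pow, map_natCast] at key2 ⊢
    exact key2
  · rw [← fK_scale hf hd h2 w D]
    refine subst hf hd h2 w hD ?_
    have e1 : (((C (algebraMap F (w.adicCompletion F) ((D : F) * (x : F))) - X) *
        h.map (algebraMap F (w.adicCompletion F))).comp (C (D : w.adicCompletion F) * X)) =
        ((C ((D : F) * (x : F)) - C (D : F) * X) *
      h.comp (C (D : F) * X)).map (algebraMap F (w.adicCompletion F)) := by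
      rw [mul_comp, sub_comp, C_comp, X_comp, Polynomial.map_mul, Polynomial.map_sub, map_C,
        Polynomial.map_mul, map_C, map_X, Polynomial.map_comp, Polynomial.map_mul, map_C, map_X,
        map_natCast (algebraMap F (w.adicCompletion F))]
    rw [e1]
    exact hg

theorem ploc_left {f : (𝓞 F)[X]} (hf : f.Monic) (hd : f.natDegree = 3) (h2 : f.coeff 2 = 0)
    (w : HeightOneSpectrum (𝓞 F)) {D : ℕ} (hD : D ≠ 0) {h : F[X]}
    {g : (w.adicCompletion F)[X]}
    (hg : fK w f ∣ (h.comp (C (D : F) * X)).map (algebraMap F (w.adicCompletion F)) - g ^ 2) :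
    PLoc (w.adicCompletion F) ((f.coeff 1 : F) * (D : F) ^ 2) ((f.coeff 0 : F) * (D : F) ^ 3) h := by
  left
  refine ⟨g.comp (C (D : w.adicCompletion F)⁻¹ * X), ?_⟩
  rw [← fK_scale hf hd h2 w D]
  refine subst hf hd h2 w hD ?_
  have e1 : ((h.map (algebraMap F (w.adicCompletion F))).comp (C (D : w.adicCompletion F) * X)) =
      (h.comp (C (D : F) * X)).map (algebraMap F (w.adicCompletion F)) := by
    rw [Polynomial.map_comp, Polynomial.map_mul, map_C, map_X,
      map_natCast (algebraMap F (w.adicCompletion F))]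
  rw [e1]
  exact hg

/-- **S_SQJ** -/
theorem sqj : S_SQJ := by
  intro W F L _ _ _ _ _ f θ S J 𝔮 r P hG hsq hc2 hS hP hJS q hqJ h hα hN hev hU w hqw
  have hqS := hJS hqJ
  have hd3 : f.natDegree = 3 := hG.deg
  obtain ⟨hq, -, -, h8, hur, hprime, hmem𝔮, hm, hdeg, hirr, hPm, hPd, hPt, hPc, hPi⟩ := hS q hqS
  obtain ⟨D, hDJ⟩ : ∃ D, D = Dp J := ⟨_, rfl⟩
  rw [← hDJ] at hα hN hev hU ⊢
  obtain ⟨E, hE, hEq⟩ : ∃ E : ℕ, D = q * E ∧ ¬ q ∣ E := by
    refine ⟨∏ p ∈ J.erase q, p, ?_, ?_⟩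
    · rw [hDJ]
      exact (Finset.mul_prod_erase J (fun p => p) hqJ).symm
    · intro hdvd
      obtain ⟨p, hpJ, hp⟩ := (Prime.dvd_finset_prod_iff hq.prime _).mp hdvd
      rw [Finset.mem_erase] at hpJ
      have hpp := (hS p (hJS hpJ.2)).1
      exact hpJ.1 ((Nat.prime_dvd_prime_iff_eq hq hpp).mp hp).symm
  have hD0 : D ≠ 0 := by
    rw [hDJ]
    exact Finset.prod_ne_zero_iff.mpr fun p hp => (hS p (hJS hp)).1.ne_zero
  have hw2 : (2 : 𝓞 F) ∉ w.asIdeal := by
    intro h2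
    apply w.isPrime.ne_top
    rw [Ideal.eq_top_iff_one]
    have e : (q : 𝓞 F) = 2 * (4 * ((q / 8 : ℕ) : 𝓞 F)) + 1 := by
      have e1 : q = 2 * (4 * (q / 8)) + 1 := by omega
      exact_mod_cast congrArg (Nat.cast (R := 𝓞 F)) e1
    have e2 : (1 : 𝓞 F) = (q : 𝓞 F) - 2 * (4 * ((q / 8 : ℕ) : 𝓞 F)) := by rw [e]; ring
    rw [e2]
    exact Ideal.sub_mem _ hqw (Ideal.mul_mem_right _ _ h2)
  have hEw : (E : 𝓞 F) ∉ w.asIdeal := by
    intro h2
    apply w.isPrime.ne_top
    rw [Ideal.eq_top_iff_one]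
    have hcop : IsCoprime (q : ℤ) (E : ℤ) :=
      Nat.isCoprime_iff_coprime.mpr ((Nat.Prime.coprime_iff_not_dvd hq).mpr hEq)
    obtain ⟨a, b, hab⟩ := hcop
    have e := congrArg (Int.cast (R := 𝓞 F)) hab
    push_cast at e
    rw [← e]
    exact Ideal.add_mem _ (Ideal.mul_mem_left _ _ hqw) (Ideal.mul_mem_left _ _ h2)
  have hae : aeval θ (h.comp (C (D : F) * X)) = aeval ((D : L) * θ) h := by
    rw [aeval_comp, map_mul, aeval_C, aeval_X, map_natCast]
  have hqL : ∀ 𝔓 : HeightOneSpectrum (𝓞 L), Ov w.asIdeal 𝔓 → (q : 𝓞 L) ∈ 𝔓.asIdeal := by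
    intro 𝔓 hov
    have h2 := hov _ hqw
    rwa [map_natCast] at h2
  by_cases hwq : w.asIdeal = 𝔮 q
  · have hcgP : Cg (𝔮 q) f (X * r q) := by
      intro j
      have h2 : f.coeff j - (P q).coeff j ∈ 𝔮 q :=
        (Ideal.span_le.mpr (by simpa using hmem𝔮)) (hP q hqS j)
      have h3 := hPc j
      have e : f.coeff j - (X * r q).coeff j =
          (f.coeff j - (P q).coeff j) + ((P q).coeff j - (X * r q).coeff j) := by ring
      rw [e]
      exact Ideal.add_mem _ h2 h3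
    obtain ⟨𝔓₁, 𝔔, ov1, ovQ, hθ1, hθQ, hq1, hqQ, hall⟩ :=
      Pool.Agent.N73.PF.exq int 1 W F L f θ S 𝔮 r P (le_refl 1) hG hsq hS q hqS hcgP
    have hcsq := (Pool.Agent.N73.PF.csq int 1 W F L f θ S 𝔮 r P (le_refl 1) hG hsq hS q hqS hcgP
      𝔔 ovQ hθQ).1
    have hevq := fun 𝔓 hq' => hev 𝔓 hq'
    have hUQ := hU 𝔔 ovQ hθQ
    have hev1 : Ev 𝔓₁ (aeval ((D : L) * θ) h) :=
      hev 𝔓₁ (hqL 𝔓₁ (by rw [hwq]; exact ov1)) fun _ => hθ1.ne
    rw [← hwq] at hcgP ov1 ovQ hcsq hall hirr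
    obtain ⟨hbd, hbX⟩ := hbar w.isMaximal (le_refl 1) hm hdeg
    have hB : f.coeff 0 ∈ w.asIdeal := by
      have h2 := hcgP 0
      rwa [coeff_X_mul_zero, sub_zero] at h2
    have hA : f.coeff 1 ∉ w.asIdeal := by
      intro hA
      letI : Field (𝓞 F ⧸ w.asIdeal) := Ideal.Quotient.field w.asIdeal
      have h2 := hcgP 1
      rw [coeff_X_mul (r q) 0] at h2
      have h3 : (r q).coeff 0 ∈ w.asIdeal := by
        have e : (r q).coeff 0 = f.coeff 1 - (f.coeff 1 - (r q).coeff 0) := by ring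
        rw [e]
        exact Ideal.sub_mem _ hA h2
      have h4 : X ∣ rd w.asIdeal (r q) := by
        rw [X_dvd_iff, coeff_map]
        exact Ideal.Quotient.eq_zero_iff_mem.mpr h3
      exact hbX ((irreducible_X.dvd_symm hirr) h4)
    have hq0 : (q : 𝓞 F) ≠ 0 := by exact_mod_cast hq.ne_zero
    have hDcast : (D : 𝓞 F) = (q : 𝓞 F) * (E : 𝓞 F) := by rw [hE]; push_cast; ring
    have hDw : (D : 𝓞 F) ∈ w.asIdeal := by
      rw [hDcast]
      exact Ideal.mul_mem_right _ _ hqw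
    have hvD : w.valuation F (((D : 𝓞 F)) : F) = exp (-1 : ℤ) := by
      have h2 : w.valuation F ((q : 𝓞 F) : F) = exp (-1 : ℤ) :=
        Pool.Agent.N765.PJ.val_one hq0 hqw (hur _ w.isPrime)
      have h3 : w.valuation F ((E : 𝓞 F) : F) = 1 := w.valuation_eq_one_iff_notMem.mpr hEw
      have h4 : (((q : 𝓞 F) * (E : 𝓞 F) : 𝓞 F) : F) = ((q : 𝓞 F) : F) * ((E : 𝓞 F) : F) :=
        map_mul _ _ _
      rw [hDcast, h4, map_mul, h2, h3, mul_one]
    by_cases hE' : Ev 𝔔 (aeval ((D : L) * θ) h)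
    · obtain ⟨g, hg⟩ := t1 hG hsq w hw2 hm hdeg hirr hcgP (h := h.comp (C (D : F) * X))
        (by rwa [hae]) (by rw [hae]; exact hN.map _) (by
          intro 𝔓 hov
          rw [hae]
          rcases hall 𝔓 hov with rfl | rfl
          · exact hev1
          · exact hE') ovQ hθQ (by rw [hae]; exact hUQ.1 hE')
      exact ploc_left hG.mon hd3 hc2 w hD0 hg
    · have hSQ := hUQ.2 hE'
      obtain ⟨x, hxw, hx⟩ := exists_x w hA hB hDw
      obtain ⟨y, hy0, hy⟩ := exists_sq w hw2 (c := x ^ 3 + f.coeff 1 * x + f.coeff 0) hA hvD hx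
      rw [show (((D : 𝓞 F)) : F) = (D : F) from map_natCast _ _] at hy
      obtain ⟨xL, hxL⟩ : ∃ xL, xL = algebraMap F L (x : F) := ⟨_, rfl⟩
      have hae3 : aeval θ ((C ((D : F) * (x : F)) - C (D : F) * X) * h.comp (C (D : F) * X)) =
          ((D : L) * (xL - θ)) * aeval ((D : L) * θ) h := by
        rw [map_mul, hae, map_sub, aeval_C, map_mul (aeval θ), aeval_C, aeval_X,
          map_mul (algebraMap F L), map_natCast, ← hxL]
        ring
      have hroot : θ ^ 3 + algebraMap F L (f.coeff 1 : F) * θ + algebraMap F L (f.coeff 0 : F) = 0 := by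
        have h2 := hG.root
        rw [fF_eq hG.mon hd3 hc2] at h2
        simpa using h2
      have hDL : (D : L) ≠ 0 := by exact_mod_cast hD0
      have hval : ∀ (𝔓 : HeightOneSpectrum (𝓞 L)) (c : 𝓞 F), Ov w.asIdeal 𝔓 → c ∈ w.asIdeal →
          𝔓.valuation L (algebraMap F L (c : F)) < 1 := by
        intro 𝔓 c hov hc
        rw [← algMap_coe]
        exact (𝔓.valuation_lt_one_iff_mem _).mpr (hov c hc)
      have hval1 : ∀ (𝔓 : HeightOneSpectrum (𝓞 L)) (c : 𝓞 F), Ov w.asIdeal 𝔓 → c ∉ w.asIdeal →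
          𝔓.valuation L (algebraMap F L (c : F)) = 1 := by
        intro 𝔓 c hov hc
        rw [← algMap_coe]
        exact 𝔓.valuation_eq_one_iff_notMem.mpr fun h2 => hc ((ov_iff w.isMaximal hov c).mp h2)
      have hcast : ∀ n : ℕ, algebraMap F L (((n : 𝓞 F)) : F) = (n : L) := by
        intro n
        rw [show (((n : 𝓞 F)) : F) = (n : F) from map_natCast _ _, map_natCast]
      have hvxQ : 𝔔.valuation L xL < 1 := by rw [hxL]; exact hval 𝔔 x ovQ hxw
      have hvx1 : 𝔓₁.valuation L xL < 1 := by rw [hxL]; exact hval 𝔓₁ x ov1 hxw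
      have hvQ : 𝔔.valuation L (xL - θ) = 1 := by
        rw [Valuation.map_sub_eq_of_lt_right _ (by rw [hθQ]; exact hvxQ), hθQ]
      have hxθ : xL - θ ≠ 0 := by
        intro h2
        rw [h2, map_zero] at hvQ
        exact zero_ne_one hvQ
      have hvD1 : 𝔓₁.valuation L (D : L) = exp (-1 : ℤ) := by
        have h2 : (D : L) = (q : L) * (E : L) := by rw [hE]; push_cast; ring
        rw [h2, map_mul, hq1, ← hcast E, hval1 𝔓₁ _ ov1 hEw, mul_one]
      have hω : 𝔓₁.valuation L (xL ^ 3 + algebraMap F L (f.coeff 1 : F) * xL +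
          algebraMap F L (f.coeff 0 : F) - (D : L) * algebraMap F L (f.coeff 1 : F) ^ 2) <
          𝔓₁.valuation L (D : L) := by
        have h2 : xL ^ 3 + algebraMap F L (f.coeff 1 : F) * xL +
            algebraMap F L (f.coeff 0 : F) - (D : L) * algebraMap F L (f.coeff 1 : F) ^ 2 =
            algebraMap (𝓞 L) L (algebraMap (𝓞 F) (𝓞 L)
              (x ^ 3 + f.coeff 1 * x + f.coeff 0 - (D : 𝓞 F) * f.coeff 1 ^ 2)) := by
          rw [algMap_coe, hxL]
          simp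
        have h3 : algebraMap (𝓞 F) (𝓞 L)
            (x ^ 3 + f.coeff 1 * x + f.coeff 0 - (D : 𝓞 F) * f.coeff 1 ^ 2) ∈ 𝔓₁.asIdeal ^ 2 := by
          have h4 : (w.asIdeal ^ 2).map (algebraMap (𝓞 F) (𝓞 L)) ≤ 𝔓₁.asIdeal ^ 2 := by
            rw [Ideal.map_pow]
            exact Ideal.pow_right_mono (Ideal.map_le_iff_le_comap.mpr fun a ha => ov1 a ha) 2
          exact h4 (Ideal.mem_map_of_mem _ hx)
        rw [h2, hvD1, 𝔓₁.valuation_of_algebraMap]
        have h5 := (𝔓₁.intValuation_le_pow_iff_mem _ 2).mpr h3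
        refine lt_of_le_of_lt h5 ?_
        rw [exp_lt_exp]
        norm_num
      have hv1 : 𝔓₁.valuation L (xL - θ) = 𝔓₁.valuation L (D : L) :=
        val_small hroot hθ1 hvx1 (hval1 𝔓₁ _ ov1 hA) hω
      have hevx : Ev 𝔓₁ ((D : L) * (xL - θ)) := ⟨(D : L), by rw [map_mul, hv1, sq]⟩
      -- the big prime
      have hθ0 : θ ≠ 0 := by
        intro h2
        rw [h2, map_zero] at hθQ
        exact zero_ne_one hθQ
      have hvE : 𝔔.valuation L (E : L) = 1 := by
        rw [← hcast E]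
        exact hval1 𝔔 _ ovQ hEw
      have hnE : Sq1 𝔔 (-(E : L)) := by
        have h2 := hcsq (-(E : 𝓞 F)) (fun h3 => hEw (by simpa using neg_mem h3))
        have e : algebraMap F L ((-(E : 𝓞 F) : 𝓞 F) : F) = -(E : L) := by
          have e2 : ((-(E : 𝓞 F) : 𝓞 F) : F) = -((E : 𝓞 F) : F) := map_neg (algebraMap (𝓞 F) F) _
          rw [e2, map_neg (algebraMap F L), hcast]
        rwa [e] at h2
      have hu1 : Sq1 𝔔 ((E : L) * (xL - θ) * θ) := by
        have h2 : Sq1 𝔔 (-(E : L) * θ ^ 2) :=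
          (Pool.Agent.N622.PJ.sq1_mul_sq hθ0).mpr hnE
        refine Pool.Agent.N545.PF.sq1_congr ?_ h2
        have e : (E : L) * (xL - θ) * θ - -(E : L) * θ ^ 2 = (E : L) * xL * θ := by ring
        rw [e, map_mul, map_mul, hvE, hθQ, map_mul, map_pow, Valuation.map_neg, hvE, hθQ]
        simpa using hvxQ
      have hSβ : Sq1 𝔔 (((D : L) * (xL - θ)) * aeval ((D : L) * θ) h) := by
        have h2 := Pool.Agent.N622.PJ.sq1_mul hSQ hu1
        have e : aeval ((D : L) * θ) h * ((q : L) * θ) * ((E : L) * (xL - θ) * θ) =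
            ((D : L) * (xL - θ)) * aeval ((D : L) * θ) h * θ ^ 2 := by
          have h3 : (D : L) = (q : L) * (E : L) := by rw [hE]; push_cast; ring
          rw [h3]
          ring
        rw [e, Pool.Agent.N622.PJ.sq1_mul_sq hθ0] at h2
        exact h2
      -- the norm
      have hnorm : Algebra.norm F ((D : L) * (xL - θ)) =
          (D : F) ^ 3 * ((x ^ 3 + f.coeff 1 * x + f.coeff 0 : 𝓞 F) : F) := by
        rw [map_mul, hxL, norm_x_sub hG, fF_eq hG.mon hd3 hc2]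
        have h2 : (D : L) = algebraMap F L (D : F) := by rw [map_natCast]
        rw [h2, Algebra.norm_algebraMap, hG.rank]
        simp
      have hNβ : IsSquare (algebraMap F (w.adicCompletion F)
          (Algebra.norm F (((D : L) * (xL - θ)) * aeval ((D : L) * θ) h))) := by
        rw [map_mul (Algebra.norm F), hnorm, map_mul (algebraMap F (w.adicCompletion F))]
        refine IsSquare.mul ?_ (hN.map _)
        refine ⟨(D : w.adicCompletion F) * y, ?_⟩
        have e : (D : F) ^ 3 * ((x ^ 3 + f.coeff 1 * x + f.coeff 0 : 𝓞 F) : F) =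
            (D : F) ^ 2 * ((D : F) * ((x ^ 3 + f.coeff 1 * x + f.coeff 0 : 𝓞 F) : F)) := by ring
        rw [e, map_mul (algebraMap F (w.adicCompletion F)), ← hy, map_pow, map_natCast]
        ring
      have hβ0 : ((D : L) * (xL - θ)) * aeval ((D : L) * θ) h ≠ 0 :=
        mul_ne_zero (mul_ne_zero hDL hxθ) hα
      obtain ⟨g, hg⟩ := t1 hG hsq w hw2 hm hdeg hirr hcgP
        (h := (C ((D : F) * (x : F)) - C (D : F) * X) * h.comp (C (D : F) * X))
        (by rwa [hae3]) (by rwa [hae3]) (by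
          intro 𝔓 hov
          rw [hae3]
          rcases hall 𝔓 hov with rfl | rfl
          · exact ev_mul hevx hev1
          · exact ev_of_sq1 hSβ) ovQ hθQ (by rwa [hae3])
      exact ploc_right hG.mon hd3 hc2 w hD0 hy0 hy hg
  · -- `f` is irreducible modulo `w`
    have hcg : Cg w.asIdeal f (P q) := by
      intro j
      have h2 := hP q hqS j
      exact (Ideal.span_le.mpr (by simpa using hqw)) h2
    have hirr' : Irreducible (rd w.asIdeal f) := by
      rw [map_eq_of_cg hcg]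
      exact hPi w.asIdeal w.isPrime hqw hwq
    obtain ⟨g, hg⟩ := t0 hG hsq w hw2 hirr' (h := h.comp (C (D : F) * X)) (by rwa [hae])
      (by rwa [hae]) (by
        intro 𝔓 hov
        rw [hae]
        refine hev 𝔓 (hqL 𝔓 hov) fun hov' => ?_
        exfalso
        apply hwq
        have hne : 𝔮 q ≠ ⊥ := fun h0 => by
          rw [h0, Ideal.mem_bot] at hmem𝔮
          exact hq.ne_zero (by exact_mod_cast hmem𝔮)
        have hmax : (𝔮 q).IsMaximal := hprime.isMaximal hne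
        ext c
        rw [← ov_iff w.isMaximal hov c, ov_iff hmax hov' c])
    exact ploc_left hG.mon hd3 hc2 w hD0 hg

end final

end Pool.Agent.H72P.PR
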