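import Pool.Agent.N704.PJ.Hensel

/-!
# PR/ODD: completeness of the valuation ring and square roots in finite free algebras over it
-/

set_option autoImplicit false
set_option linter.all false

open WithZero Filter Topology Polynomial

namespace Pool.Agent.H72P.PR

section complete

variable {R B : Type} [CommRing R] [CommRing B] [Algebra R B] {ι : Type} [Fintype ι]

theorem dvd_iff_coord (b : Module.Basis ι R B) (p : R) (x : B) :
    algebraMap R B p ∣ x ↔ ∀ i, p ∣ b.repr x i := by
  constructor
  · rintro ⟨y, rfl⟩ i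
    rw [← Algebra.smul_def, map_smul, Finsupp.smul_apply, smul_eq_mul]
    exact dvd_mul_right _ _
  · intro h
    choose d hd using h
    refine ⟨∑ i, d i • b i, ?_⟩
    rw [← Algebra.smul_def, Finset.smul_sum]
    conv_lhs => rw [← b.sum_repr x]
    refine Finset.sum_congr rfl fun i _ => ?_
    rw [hd i, smul_smul]

theorem smodEq_iff' {A : Type} [CommRing A] (p : A) (n : ℕ) (x y : A) :
    x ≡ y [SMOD ((Ideal.span {p}) ^ n • ⊤ : Submodule A A)] ↔ p ^ n ∣ x - y := by
  rw [SModEq.sub_mem, smul_eq_mul, Ideal.mul_top, Ideal.span_singleton_pow,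
    Ideal.mem_span_singleton]

/-- finite free algebras over a complete ring are complete -/
theorem complete_free (b : Module.Basis ι R B) (p : R) [h : IsAdicComplete (Ideal.span {p}) R] :
    IsAdicComplete (Ideal.span {algebraMap R B p}) B := by
  have h1 : IsHausdorff (Ideal.span {algebraMap R B p}) B := by
    refine ⟨fun x hx => ?_⟩
    apply b.repr.injective
    rw [map_zero]
    ext i
    refine IsHausdorff.haus (I := Ideal.span {p}) inferInstance _ fun n => ?_
    have h2 := (smodEq_iff' (algebraMap R B p) n x 0).1 (hx n)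
    rw [smodEq_iff', sub_zero]
    rw [sub_zero, ← map_pow] at h2
    exact (dvd_iff_coord b (p ^ n) x).1 h2 i
  have h2 : IsPrecomplete (Ideal.span {algebraMap R B p}) B := by
    refine ⟨fun f hf => ?_⟩
    have h3 : ∀ i, ∃ L : R, ∀ n, b.repr (f n) i ≡ L
        [SMOD ((Ideal.span {p}) ^ n • ⊤ : Submodule R R)] := by
      intro i
      refine IsPrecomplete.prec (I := Ideal.span {p}) inferInstance fun {m n} hmn => ?_
      have h4 := (smodEq_iff' (algebraMap R B p) m (f m) (f n)).1 (hf hmn)
      rw [← map_pow] at h4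
      have h5 := (dvd_iff_coord b (p ^ m) _).1 h4 i
      rw [smodEq_iff']
      rwa [map_sub, Finsupp.sub_apply] at h5
    choose L hL using h3
    refine ⟨∑ i, L i • b i, fun n => ?_⟩
    rw [smodEq_iff', ← map_pow, dvd_iff_coord b]
    intro i
    have h4 := (smodEq_iff' p n _ _).1 (hL i n)
    have h5 : b.repr (∑ i, L i • b i) i = L i := by
      rw [b.repr_sum_self]
    rwa [map_sub, Finsupp.sub_apply, h5]
  exact { h1, h2 with }

/-- square roots in henselian rings -/
theorem sqrt_of_complete {I : Ideal B} [IsAdicComplete I B] {u s : B} (h2 : IsUnit (2 : B))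
    (hu : IsUnit (Ideal.Quotient.mk I u)) (hs : u - s ^ 2 ∈ I) : ∃ g : B, u = g ^ 2 := by
  have hsu : IsUnit (Ideal.Quotient.mk I s) := by
    have h3 : Ideal.Quotient.mk I u = Ideal.Quotient.mk I s ^ 2 := by
      rw [← map_pow]
      exact Ideal.Quotient.eq.mpr hs
    rw [h3] at hu
    exact (isUnit_pow_iff two_ne_zero).mp hu
  obtain ⟨g, hg, -⟩ := HenselianRing.is_henselian (I := I) (X ^ 2 - C u : B[X])
    (monic_X_pow_sub_C u two_ne_zero) s (by
      rw [eval_sub, eval_pow, eval_X, eval_C, ← neg_sub]
      exact I.neg_mem hs) (by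
      have h3 : (derivative (X ^ 2 - C u : B[X])).eval s = 2 * s := by
        simp
        ring
      rw [h3, map_mul]
      exact (h2.map _).mul hsu)
  refine ⟨g, ?_⟩
  have h3 : (X ^ 2 - C u : B[X]).eval g = 0 := hg
  rw [eval_sub, eval_pow, eval_X, eval_C] at h3
  exact (sub_eq_zero.mp h3).symm

end complete

section valued

variable {K : Type} [Field K] [Valued K (WithZero (Multiplicative ℤ))]

/-- the valuation -/
noncomputable abbrev vK (K : Type) [Field K] [Valued K (WithZero (Multiplicative ℤ))] :
    Valuation K (WithZero (Multiplicative ℤ)) := Valued.v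

/-- the valuation ring -/
noncomputable abbrev OK (K : Type) [Field K] [Valued K (WithZero (Multiplicative ℤ))] : Subring K :=
  (vK K).integer

theorem dvd_iff_val {x y : OK K} : x ∣ y ↔ vK K (y : K) ≤ vK K (x : K) := by
  constructor
  · rintro ⟨z, rfl⟩
    have : ((x * z : OK K) : K) = (x : K) * z := rfl
    rw [this, map_mul]
    calc _ ≤ vK K (x : K) * 1 := mul_le_mul' le_rfl z.2
      _ = _ := mul_one _
  · intro h
    by_cases hx : (x : K) = 0
    · have hy : (y : K) = 0 := by
        rw [hx, map_zero] at h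
        exact (Valuation.zero_iff _).mp (le_antisymm h zero_le)
      refine ⟨0, ?_⟩
      apply Subtype.ext
      rw [hy, mul_zero]
      rfl
    · refine ⟨⟨(y : K) / x, ?_⟩, ?_⟩
      · show vK K ((y : K) / x) ≤ 1
        rw [map_div₀]
        have h0 : vK K (x : K) ≠ 0 := (Valuation.ne_zero_iff _).mpr hx
        exact div_le_one_of_le₀ h zero_le
      · apply Subtype.ext
        show (y : K) = (x : K) * ((y : K) / x)
        field_simp

theorem adic [CompleteSpace K] [T0Space K] (π : OK K) (h0 : (π : K) ≠ 0)
    (h1 : vK K (π : K) < 1) : IsAdicComplete (Ideal.span {π}) (OK K) := by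
  have hv0 : vK K (π : K) ≠ 0 := (Valuation.ne_zero_iff _).mpr h0
  have hpow : ∀ n : ℕ, ((π ^ n : OK K) : K) = (π : K) ^ n := fun n => rfl
  have hH : IsHausdorff (Ideal.span {π}) (OK K) := by
    refine ⟨fun x hx => ?_⟩
    by_contra hne
    have hx0 : (x : K) ≠ 0 := fun h => hne (Subtype.ext h)
    have hvx : vK K (x : K) ≠ 0 := (Valuation.ne_zero_iff _).mpr hx0
    have h3 : ∀ n : ℕ, vK K (x : K) ≤ vK K (π : K) ^ n := by
      intro n
      have h4 := (smodEq_iff' π n x 0).1 (hx n)
      rw [sub_zero, dvd_iff_val, hpow, map_pow] at h4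
      exact h4
    obtain ⟨n, hn⟩ := exists_pow_lt₀ h1 (Units.mk0 _ hvx)
    exact absurd (h3 n) (not_le.mpr hn)
  have hP : IsPrecomplete (Ideal.span {π}) (OK K) := by
    refine ⟨fun f hf => ?_⟩
    have h3 : ∀ m n : ℕ, m ≤ n → vK K ((f m : K) - f n) ≤ vK K ((π : K) ^ m) := by
      intro m n hmn
      have h4 := (smodEq_iff' π m (f m) (f n)).1 (hf hmn)
      rw [dvd_iff_val, hpow] at h4
      exact h4
    haveI := Pool.Agent.N704.PJ.nonarch (L := K)
    have hlim : Tendsto (fun n => (f (n + 1) : K) - f n) atTop (𝓝 0) := by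
      have h5 : Tendsto (fun n : ℕ => (π : K) ^ n) atTop (𝓝 0) :=
        Valued.tendsto_zero_pow_of_v_lt_one h1
      rw [(Valued.hasBasis_nhds_zero K _).tendsto_right_iff] at h5 ⊢
      intro γ hγ
      filter_upwards [h5 γ hγ] with n hn
      have h4 : (Valued.v (R := K)).restrict ((f (n + 1) : K) - f n) ≤
          (Valued.v (R := K)).restrict ((π : K) ^ n) := by
        rw [Valuation.restrict_le_iff, ← Valuation.map_neg, neg_sub]
        exact h3 n (n + 1) (Nat.le_succ n)
      exact lt_of_le_of_lt h4 hn
    have hcau : CauchySeq (fun n => (f n : K)) :=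
      NonarchimedeanAddGroup.cauchySeq_of_tendsto_sub_nhds_zero hlim
    obtain ⟨w, hw⟩ := cauchySeq_tendsto_of_complete hcau
    have h6 : ∀ n : ℕ, vK K ((f n : K) - w) ≤ vK K ((π : K) ^ n) := by
      intro n
      have hcl : IsClosed {y : K | (Valued.v (R := K)).restrict ((f n : K) - y) ≤
          (Valued.v (R := K)).restrict ((π : K) ^ n)} := by
        have h7 := Valued.isClosed_closedBall K ((Valued.v (R := K)).restrict ((π : K) ^ n))
        exact h7.preimage (f := fun y : K => (f n : K) - y) (by fun_prop)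
      have h8 : w ∈ {y : K | (Valued.v (R := K)).restrict ((f n : K) - y) ≤
          (Valued.v (R := K)).restrict ((π : K) ^ n)} := by
        refine hcl.mem_of_tendsto hw ?_
        filter_upwards [eventually_ge_atTop n] with m hm
        show (Valued.v (R := K)).restrict ((f n : K) - f m) ≤ _
        rw [Valuation.restrict_le_iff]
        exact h3 n m hm
      have h9 : (Valued.v (R := K)).restrict ((f n : K) - w) ≤
          (Valued.v (R := K)).restrict ((π : K) ^ n) := h8
      rwa [Valuation.restrict_le_iff] at h9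
    have hwO : vK K w ≤ 1 := by
      have h7 := h6 0
      rw [pow_zero, map_one] at h7
      have e : w = (f 0 : K) - ((f 0 : K) - w) := by ring
      rw [e]
      exact (Valuation.map_sub _ _ _).trans (max_le (f 0).2 h7)
    refine ⟨⟨w, hwO⟩, fun n => ?_⟩
    rw [smodEq_iff', dvd_iff_val, hpow]
    exact h6 n
  exact { hH, hP with }

end valued

end Pool.Agent.H72P.PR
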