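import Mathlib

/-!
# PR/FF: over a finite field of odd characteristic every class of square norm comes from a point
-/

set_option autoImplicit false

open Polynomial Module

namespace Pool.Agent.H72P.PR

/-! ### Norms and resultants -/

section

variable {n : Type*} [Fintype n] [DecidableEq n]

lemma det_lin {L : Type*} [Field L] (T : Matrix n n L) (hT : T.charpoly.Splits) (b : L) :
    (aeval T (X - C b)).det = (T.charpoly.roots.map fun a => a - b).prod := by
  have h1 : aeval T (X - C b) = -(Matrix.scalar n b - T) := by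
    rw [map_sub, aeval_X, aeval_C, neg_sub]
    rfl
  have h2 : T.charpoly.eval b = (T.charpoly.roots.map fun a => b - a).prod :=
    hT.eval_eq_prod_roots_of_monic T.charpoly_monic b
  have h3 : T.charpoly.roots.card = Fintype.card n := by
    rw [← hT.natDegree_eq_card_roots, Matrix.charpoly_natDegree_eq_dim]
  rw [h1, Matrix.det_neg, ← Matrix.eval_charpoly, h2, ← h3, ← Multiset.prod_replicate,
    ← Multiset.map_const', ← Multiset.prod_map_mul]
  congr 1
  refine Multiset.map_congr rfl fun a _ => ?_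
  ring

lemma det_aeval_splits {L : Type*} [Field L] (T : Matrix n n L) (hT : T.charpoly.Splits)
    (Q : L[X]) (hQ : Q.Monic) (hQs : Q.Splits) :
    (aeval T Q).det = resultant T.charpoly Q := by
  let h : L[X] →* L := (Matrix.detMonoidHom : Matrix n n L →* L).comp
    ((aeval T : L[X] →ₐ[L] Matrix n n L) : L[X] →* Matrix n n L)
  have h1 : ∀ P : L[X], h P = (aeval T P).det := fun P => rfl
  have h2 : h Q = (Q.roots.map fun b => (T.charpoly.roots.map fun a => a - b).prod).prod := by
    conv_lhs => rw [hQs.eq_prod_roots_of_monic hQ]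
    rw [map_multiset_prod, Multiset.map_map]
    congr 1
    refine Multiset.map_congr rfl fun b _ => ?_
    rw [Function.comp_apply, h1, det_lin T hT]
  have h3 : resultant T.charpoly Q =
      (T.charpoly.roots.map fun a => (Q.roots.map fun b => a - b).prod).prod := by
    rw [resultant_eq_prod_eval T.charpoly Q Q.natDegree le_rfl hT, T.charpoly_monic.leadingCoeff,
      one_pow, one_mul]
    congr 1
    refine Multiset.map_congr rfl fun a _ => ?_
    exact hQs.eval_eq_prod_roots_of_monic hQ a
  rw [← h1, h2, h3, Multiset.prod_map_prod_map]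

/-- the determinant of a polynomial in a matrix is a resultant -/
lemma det_aeval {K : Type*} [Field K] (T : Matrix n n K) (Q : K[X]) (hQ : Q.Monic) :
    (aeval T Q).det = resultant T.charpoly Q := by
  apply (algebraMap K (AlgebraicClosure K)).injective
  set i := algebraMap K (AlgebraicClosure K) with hi
  have h1 : i (aeval T Q).det = (i.mapMatrix (aeval T Q)).det := RingHom.map_det i _
  have h2 : i.mapMatrix (aeval T Q) = aeval (i.mapMatrix T) (Q.map i) := by
    apply Polynomial.map_aeval_eq_aeval_map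
    ext r
    simp [Matrix.algebraMap_matrix_apply, Matrix.map_apply]
    split_ifs <;> simp
  have h3 : (i.mapMatrix T).charpoly = T.charpoly.map i := by
    rw [RingHom.mapMatrix_apply, Matrix.charpoly_map]
  rw [h1, h2, det_aeval_splits _ (IsAlgClosed.splits _) _ (hQ.map i) (IsAlgClosed.splits _), h3,
    natDegree_map, natDegree_map, resultant_map_map]

end

/-- the norm of a polynomial in a generator -/
lemma norm_pb {K S : Type*} [Field K] [CommRing S] [Algebra K S] (pb : PowerBasis K S)
    (Q : K[X]) (hQ : Q.Monic) :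
    Algebra.norm K (aeval pb.gen Q) = resultant (minpoly K pb.gen) Q := by
  rw [Algebra.norm_eq_matrix_det pb.basis, ← Polynomial.aeval_algHom_apply, det_aeval _ _ hQ,
    charpoly_leftMulMatrix]

lemma norm_eq {K : Type*} [Field K] {f h : K[X]} (hf : f.Monic) (hh : h ≠ 0) :
    Algebra.norm K (AdjoinRoot.mk f h) = resultant f h := by
  have hf0 : f ≠ 0 := hf.ne_zero
  let pb : PowerBasis K (AdjoinRoot f) := AdjoinRoot.powerBasis hf0
  have hmin : minpoly K pb.gen = f := AdjoinRoot.minpoly_powerBasis_gen_of_monic hf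
  have hmon : (h * C h.leadingCoeff⁻¹).Monic := monic_mul_leadingCoeff_inv hh
  have h1 : ∀ q : K[X], AdjoinRoot.mk f q = aeval pb.gen q :=
    fun q => (AdjoinRoot.aeval_eq (f := f) q).symm
  have h2 : h = C h.leadingCoeff * (h * C h.leadingCoeff⁻¹) := by
    have : h.leadingCoeff ≠ 0 := leadingCoeff_ne_zero.mpr hh
    rw [mul_comm h, ← mul_assoc, ← C_mul, mul_inv_cancel₀ this, C_1, one_mul]
  have h3 : finrank K (AdjoinRoot f) = f.natDegree := pb.finrank.trans rfl
  have h4 : (h * C h.leadingCoeff⁻¹).natDegree = h.natDegree := by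
    rw [natDegree_mul_C (inv_ne_zero (leadingCoeff_ne_zero.mpr hh))]
  have h5 : AdjoinRoot.mk f h = algebraMap K (AdjoinRoot f) h.leadingCoeff *
      aeval pb.gen (h * C h.leadingCoeff⁻¹) := by
    conv_lhs => rw [h2, map_mul, h1 (h * C h.leadingCoeff⁻¹)]
    rfl
  have h6 : resultant f h = resultant f (C h.leadingCoeff * (h * C h.leadingCoeff⁻¹))
      f.natDegree h.natDegree := by rw [← h2]
  rw [h5, map_mul, Algebra.norm_algebraMap, norm_pb pb _ hmon, h3, hmin, h6,
    resultant_C_mul_right, h4]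

/-- the norm is multiplicative in the modulus -/
lemma norm_mod_mul {K : Type*} [Field K] {f g h : K[X]} (hf : f.Monic) (hg : g.Monic)
    (hh : h ≠ 0) : Algebra.norm K (AdjoinRoot.mk (f * g) h) =
      Algebra.norm K (AdjoinRoot.mk f h) * Algebra.norm K (AdjoinRoot.mk g h) := by
  rw [norm_eq (hf.mul hg) hh, norm_eq hf hh, norm_eq hg hh,
    hf.natDegree_mul hg, resultant_mul_left _ _ _ _ le_rfl]

lemma norm_lin {K : Type*} [Field K] {h : K[X]} (r : K) (hh : h ≠ 0) :
    Algebra.norm K (AdjoinRoot.mk (X - C r) h) = h.eval r := by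
  rw [norm_eq (monic_X_sub_C r) hh, natDegree_X_sub_C, resultant_X_sub_C_left _ _ _ le_rfl]

lemma norm_sub {K : Type*} [Field K] {u : K[X]} (hu : u.Monic) (h2 : u.natDegree = 2) (x : K) :
    Algebra.norm K (AdjoinRoot.mk u (C x - X)) = u.eval x := by
  have h1 : (X - C x : K[X]) ≠ 0 := X_sub_C_ne_zero x
  have h3 : AdjoinRoot.mk u (C x - X) = AdjoinRoot.mk u (C (-1)) * AdjoinRoot.mk u (X - C x) := by
    rw [← map_mul]
    congr 1
    rw [C_neg, C_1]
    ring
  have h4 : (C (-1) : K[X]) ≠ 0 := by
    rw [Ne, C_eq_zero]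
    exact neg_ne_zero.mpr one_ne_zero
  rw [h3, map_mul, norm_eq hu h4, norm_eq hu h1, natDegree_X_sub_C, h2,
    resultant_X_sub_C_right _ _ _ h2.le, natDegree_C, resultant_C_zero_right]
  ring

/-! ### Character sums -/

section

variable {F : Type*} [Field F] [Fintype F] [DecidableEq F]

theorem sum_char_sq_sub (hF : ringChar F ≠ 2) {c : F} (hc : c ≠ 0) :
    ∑ x : F, quadraticChar F (x ^ 2 - c) = -1 := by
  have h1 : ∑ x : F, quadraticChar F (x ^ 2 - c)
      = ∑ y : F, (quadraticChar F y + 1) * quadraticChar F (y - c) := by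
    rw [← Finset.sum_fiberwise (s := Finset.univ) (g := fun x : F => x ^ 2)]
    refine Finset.sum_congr rfl fun y _ => ?_
    rw [← quadraticChar_card_sqrts hF y]
    rw [Finset.sum_congr (g := fun _ => quadraticChar F (y - c)) rfl]
    · rw [Finset.sum_const, nsmul_eq_mul]
      congr 2
      have : ({x : F | x ^ 2 = y} : Set F).toFinset = Finset.univ.filter (fun x : F => x ^ 2 = y) := by
        ext x; simp
      rw [this]
    · intro x hx
      simp only [Finset.mem_filter, Finset.mem_univ, true_and] at hx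
      rw [hx]
  rw [h1]
  simp only [add_mul, one_mul, Finset.sum_add_distrib]
  have h2 : ∑ y : F, quadraticChar F (y - c) = 0 := by
    rw [← quadraticChar_sum_zero hF]
    exact Equiv.sum_comp (Equiv.subRight c) (fun y => quadraticChar F y)
  have h3 : ∑ y : F, quadraticChar F y * quadraticChar F (y - c) = -1 := by
    rw [← Equiv.sum_comp (Equiv.mulLeft₀ c hc)]
    have hneg : quadraticChar F (-1) * quadraticChar F (-1) = 1 := by
      rw [← map_mul]; simp
    have h4 : ∀ z : F, quadraticChar F (Equiv.mulLeft₀ c hc z) * quadraticChar F (Equiv.mulLeft₀ c hc z - c)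
        = quadraticChar F (-1) * (quadraticChar F z * quadraticChar F (1 - z)) := by
      intro z
      simp only [Equiv.mulLeft₀_apply]
      have h5 : quadraticChar F c * quadraticChar F c = 1 := by
        rw [← sq]; exact quadraticChar_sq_one hc
      have h6 : c * z - c = c * (-1 * (1 - z)) := by ring
      rw [h6, map_mul, map_mul, map_mul]
      linear_combination (quadraticChar F z * quadraticChar F (-1) * quadraticChar F (1 - z)) * h5
    simp only [h4]
    rw [← Finset.mul_sum]
    have h7 := jacobiSum_nontrivial_inv (quadraticChar_ne_one hF)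
    rw [(quadraticChar_isQuadratic F).inv] at h7
    unfold jacobiSum at h7
    rw [h7]
    linear_combination (-1) * hneg
  rw [h2, h3]
  norm_num

theorem sum_char_linear (hF : ringChar F ≠ 2) (b : F) :
    ∑ x : F, quadraticChar F (x - b) = 0 := by
  rw [← quadraticChar_sum_zero hF]
  exact Equiv.sum_comp (Equiv.subRight b) (fun y => quadraticChar F y)

theorem sum_char_quadratic (hF : ringChar F ≠ 2) (m d : F) (hd : d ≠ 0) :
    ∑ x : F, quadraticChar F ((x - m) ^ 2 - d) = -1 := by
  rw [← sum_char_sq_sub hF hd]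
  exact Equiv.sum_comp (Equiv.subRight m) (fun y => quadraticChar F (y ^ 2 - d))

lemma qc_vals (x : F) : quadraticChar F x = 0 ∨ quadraticChar F x = 1 ∨
    quadraticChar F x = -1 := by
  by_cases h : x = 0
  · left
    rw [h]
    simp
  · right
    exact quadraticChar_dichotomy h

variable {E : Type*} [Field E] [Fintype E] [DecidableEq E] [Algebra F E]

theorem qc_norm (hF : ringChar F ≠ 2) (y : E) :
    quadraticChar E y = quadraticChar F (Algebra.norm F y) := by
  have hE : ringChar E ≠ 2 := by
    rwa [← Algebra.ringChar_eq F E]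
  have hval : ∀ (K : Type _) [Field K] [Fintype K] [DecidableEq K] (z : K),
      quadraticChar K z ∈ ({0, 1, -1} : Set ℤ) := by
    intro K _ _ _ z
    by_cases h0 : z = 0
    · simp [h0]
    · rcases quadraticChar_dichotomy h0 with h | h <;> simp [h]
  have hval' : quadraticChar F (Algebra.norm F y) ∈ ({0, 1, -1} : Set ℤ) := by
    by_cases h0 : Algebra.norm F y = 0
    · simp [h0]
    · rcases quadraticChar_dichotomy h0 with h | h <;> simp [h]
  apply Int.cast_injOn_of_ringChar_ne_two hE (hval E y) hval'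
  rw [quadraticChar_eq_pow_of_char_ne_two' hE]
  have h1 : ((quadraticChar F (Algebra.norm F y) : ℤ) : E) =
      algebraMap F E ((quadraticChar F (Algebra.norm F y) : ℤ) : F) := by
    simp
  rw [h1, quadraticChar_eq_pow_of_char_ne_two' hF, map_pow, FiniteField.algebraMap_norm_eq_pow,
    ← pow_mul]
  congr 1
  obtain ⟨t, ht⟩ : Odd (Fintype.card F) := by
    rw [← Nat.not_even_iff_odd]
    intro h
    exact hF ((FiniteField.even_card_iff_char_two).2 (Nat.even_iff.1 h))
  have ht0 : 0 < t := by
    have := Fintype.one_lt_card (α := F)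
    omega
  have hcard : Fintype.card E = Fintype.card F ^ Module.finrank F E := Module.card_eq_pow_finrank
  obtain ⟨s, hs⟩ : Fintype.card F - 1 ∣ Fintype.card E - 1 := by
    rw [hcard]
    simpa using Nat.sub_dvd_pow_sub_pow (Fintype.card F) 1 (Module.finrank F E)
  rw [Nat.card_eq_fintype_card, Nat.card_eq_fintype_card, hs]
  have h3 : Fintype.card F - 1 = 2 * t := by omega
  have h5 : 0 < Fintype.card E := Fintype.card_pos
  have h4 : Fintype.card E = 2 * (t * s) + 1 := by
    rw [h3] at hs
    have : 2 * t * s = 2 * (t * s) := by ring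
    omega
  rw [h3, Nat.mul_div_cancel_left _ (by omega), h4, ht]
  have h6 : (2 * (t * s) + 1) / 2 = t * s := by omega
  have h7 : (2 * t + 1) / 2 = t := by omega
  rw [h6, h7, mul_comm]

end

/-! ### Squares modulo polynomials -/

variable {k : Type*} [Field k] [Fintype k] [DecidableEq k]

/-- squares modulo an irreducible polynomial -/
lemma sq_irr (hk : ringChar k ≠ 2) {u h : k[X]} (hu : Irreducible u)
    (hq : quadraticChar k (Algebra.norm k (AdjoinRoot.mk u h)) = 1) : ∃ s : k[X], u ∣ h - s ^ 2 := by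
  classical
  have : Fact (Irreducible u) := ⟨hu⟩
  have hu0 : u ≠ 0 := hu.ne_zero
  have : Module.Finite k (AdjoinRoot u) := (AdjoinRoot.powerBasis hu0).finite
  have : Finite (AdjoinRoot u) := Module.finite_of_finite k
  let _ : Fintype (AdjoinRoot u) := Fintype.ofFinite _
  rw [← qc_norm (F := k) (E := AdjoinRoot u) hk] at hq
  have h0 : AdjoinRoot.mk u h ≠ 0 := by
    intro h0
    rw [h0] at hq
    simp at hq
  rw [quadraticChar_one_iff_isSquare h0] at hq
  obtain ⟨t, ht⟩ := hq
  obtain ⟨s, rfl⟩ := AdjoinRoot.mk_surjective t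
  refine ⟨s, ?_⟩
  rw [← AdjoinRoot.mk_eq_mk, ht, map_pow]
  ring

lemma sq_lin {h : k[X]} {r : k} (hq : quadraticChar k (h.eval r) = 1) :
    ∃ s : k[X], (X - C r) ∣ h - s ^ 2 := by
  have h0 : h.eval r ≠ 0 := by
    intro h0
    rw [h0] at hq
    simp at hq
  rw [quadraticChar_one_iff_isSquare h0] at hq
  obtain ⟨t, ht⟩ := hq
  refine ⟨C t, ?_⟩
  rw [dvd_iff_isRoot, IsRoot.def, eval_sub, eval_pow, eval_C, ht]
  ring

lemma sq_lin2 (hk : ringChar k ≠ 2) {h : k[X]} {r : k} (hq : quadraticChar k (h.eval r) = 1) :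
    ∃ s : k[X], (X - C r) * (X - C r) ∣ h - s ^ 2 := by
  have h0 : h.eval r ≠ 0 := by
    intro h0
    rw [h0] at hq
    simp at hq
  rw [quadraticChar_one_iff_isSquare h0] at hq
  obtain ⟨t, ht⟩ := hq
  have ht0 : t ≠ 0 := by
    rintro rfl
    rw [mul_zero] at ht
    exact h0 ht
  have h2 : (2 : k) ≠ 0 := Ring.two_ne_zero hk
  obtain ⟨d, hd⟩ : ∃ d : k, 2 * t * d = (derivative h).eval r :=
    ⟨(derivative h).eval r / (2 * t), by field_simp⟩
  refine ⟨C t + C d * (X - C r), ?_⟩
  have h1 : (X - C r) ∣ h - (C t + C d * (X - C r)) ^ 2 := by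
    rw [dvd_iff_isRoot, IsRoot.def]
    simp [ht]
    ring
  obtain ⟨q, hq⟩ := h1
  have h3 := congrArg (fun p => (derivative p).eval r) hq
  simp [sq] at h3
  have h4 : q.eval r = 0 := by linear_combination -h3 - hd
  have h5 : (X - C r) ∣ q := dvd_iff_isRoot.mpr h4
  rw [hq]
  exact mul_dvd_mul_left _ h5

/-- The conclusion. -/
def Cl (f h : k[X]) : Prop :=
  (∃ s : k[X], f ∣ h - s ^ 2) ∨
  (∃ (x y : k) (s : k[X]), y ≠ 0 ∧ y ^ 2 = f.eval x ∧ f ∣ h * (C x - X) - s ^ 2) ∨
  ∃ (r : k) (u s : k[X]), f = (X - C r) * u ∧ u.eval r ≠ 0 ∧ f ∣ h * (C r - X + u) - s ^ 2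

omit [Fintype k] [DecidableEq k] in
lemma sq_crt {f g h : k[X]} (hfg : IsCoprime f g) (h1 : ∃ s : k[X], f ∣ h - s ^ 2)
    (h2 : ∃ s : k[X], g ∣ h - s ^ 2) : ∃ s : k[X], f * g ∣ h - s ^ 2 := by
  obtain ⟨s1, q1, e1⟩ := h1
  obtain ⟨s2, q2, e2⟩ := h2
  have hfg' := hfg
  obtain ⟨a, b, hab⟩ := hfg'
  refine ⟨s1 + f * a * (s2 - s1), ?_⟩
  apply hfg.mul_dvd
  · refine ⟨q1 - a * (s2 - s1) * (2 * s1 + f * a * (s2 - s1)), ?_⟩
    linear_combination e1
  · refine ⟨q2 - b * (s1 - s2) * (2 * s2 + (s1 - s2) * b * g), ?_⟩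
    have e : s1 + f * a * (s2 - s1) = s2 + (s1 - s2) * b * g := by
      linear_combination (s1 - s2) * (-1) * hab
    rw [e]
    linear_combination e2


lemma chi_mul {x y : k} {a b : ℤ} (hx : quadraticChar k x = a) (hy : quadraticChar k y = b) :
    quadraticChar k (x * y) = a * b := by rw [map_mul, hx, hy]

lemma chi_neg_one_iff {x : k} (hx : x ≠ 0) (h : quadraticChar k x ≠ 1) : quadraticChar k x = -1 :=
  (quadraticChar_dichotomy hx).resolve_left h

lemma chi_one_iff {x : k} (hx : x ≠ 0) (h : quadraticChar k x ≠ -1) : quadraticChar k x = 1 :=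
  (quadraticChar_dichotomy hx).resolve_right h

lemma chi_sum_nonneg (g : k → k) : 0 ≤ ∑ x : k, (1 + quadraticChar k (g x)) := by
  refine Finset.sum_nonneg fun x _ => ?_
  rcases qc_vals (g x) with h | h | h <;> rw [h] <;> norm_num

/-- linear times irreducible quadratic -/
lemma caseA (hk : ringChar k ≠ 2) {u h : k[X]} {r : k} (hu : Irreducible u) (hm : u.Monic)
    (hd : u.natDegree = 2) (hN : quadraticChar k (h.eval r) *
      quadraticChar k (Algebra.norm k (AdjoinRoot.mk u h)) = 1) : Cl ((X - C r) * u) h := by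
  have hnr : ∀ x : k, u.eval x ≠ 0 := by
    intro x hx
    have h1 := hu.natDegree_pos
    have h2 : (X - C x) ∣ u := dvd_iff_isRoot.mpr hx
    obtain ⟨v, hv⟩ := h2
    rcases hu.isUnit_or_isUnit hv with h3 | h3
    · exact not_isUnit_X_sub_C x h3
    · have h4 := natDegree_eq_zero_of_isUnit h3
      rw [hv, natDegree_mul (X_sub_C_ne_zero x) h3.ne_zero, natDegree_X_sub_C, h4] at hd
      omega
  have hcop : IsCoprime (X - C r) u := by
    refine (irreducible_X_sub_C r).coprime_iff_not_dvd.mpr fun h1 => ?_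
    exact hnr r (dvd_iff_isRoot.mp h1)
  have h0 : h.eval r ≠ 0 := by
    intro h0
    rw [h0] at hN
    simp at hN
  rcases quadraticChar_dichotomy h0 with h1 | h1
  · rw [h1, one_mul] at hN
    exact Or.inl (sq_crt hcop (sq_lin h1) (sq_irr hk hu hN))
  · right
    rw [h1] at hN
    have hN' : quadraticChar k (Algebra.norm k (AdjoinRoot.mk u h)) = -1 := by linarith
    -- the quadratic polynomial
    have h2 : (2 : k) ≠ 0 := Ring.two_ne_zero hk
    obtain ⟨m, d, hmd⟩ : ∃ m d : k, ∀ x : k, u.eval x = (x - m) ^ 2 - d := by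
      refine ⟨-(u.coeff 1 / 2), (u.coeff 1 / 2) ^ 2 - u.coeff 0, fun x => ?_⟩
      rw [eval_eq_sum_range, hd, Finset.sum_range_succ, Finset.sum_range_succ,
        Finset.sum_range_succ, Finset.sum_range_zero]
      have h3 : u.coeff 2 = 1 := by rw [← hd]; exact hm.coeff_natDegree
      rw [h3]
      field_simp
      ring
    have hd0 : d ≠ 0 := by
      rintro rfl
      apply hnr m
      rw [hmd]
      ring
    have hsum : 0 < ∑ x : k, (1 - quadraticChar k (x - r)) * (1 - quadraticChar k (u.eval x)) := by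
      have e : ∑ x : k, (1 - quadraticChar k (x - r)) * (1 - quadraticChar k (u.eval x)) =
          ∑ x : k, (1 + quadraticChar k ((x - r) * u.eval x)) - ∑ x : k, quadraticChar k (x - r) -
            ∑ x : k, quadraticChar k ((x - m) ^ 2 - d) := by
        rw [← Finset.sum_sub_distrib, ← Finset.sum_sub_distrib]
        refine Finset.sum_congr rfl fun x _ => ?_
        rw [map_mul, ← hmd]
        ring
      rw [e, sum_char_linear hk, sum_char_quadratic hk m d hd0]
      have := chi_sum_nonneg (k := k) fun x => (x - r) * u.eval x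
      linarith
    obtain ⟨x, hx⟩ : ∃ x : k, 0 < (1 - quadraticChar k (x - r)) *
        (1 - quadraticChar k (u.eval x)) := by
      by_contra hcon
      push Not at hcon
      exact absurd hsum (not_lt.mpr (Finset.sum_nonpos fun x _ => hcon x))
    have hx2 : quadraticChar k (u.eval x) = -1 := by
      apply chi_neg_one_iff (hnr x)
      intro h3
      rw [h3] at hx
      simp at hx
    have hNx : ∀ g : k[X], u ∣ g - (C x - X) →
        quadraticChar k (Algebra.norm k (AdjoinRoot.mk u (h * g))) = 1 := by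
      intro g hg
      have h3 : AdjoinRoot.mk u g = AdjoinRoot.mk u (C x - X) := AdjoinRoot.mk_eq_mk.mpr hg
      rw [map_mul, h3, map_mul, norm_sub hm hd, map_mul, hN', hx2]
      norm_num
    by_cases hxr : x = r
    · right
      refine ⟨r, u, ?_⟩
      have h3 : ∃ s : k[X], (X - C r) * u ∣ h * (C r - X + u) - s ^ 2 := by
        apply sq_crt hcop
        · apply sq_lin
          rw [eval_mul, map_mul, h1]
          rw [hxr] at hx2
          simp [hx2]
        · apply sq_irr hk hu
          apply hNx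
          rw [hxr]
          exact ⟨1, by ring⟩
      obtain ⟨s, hs⟩ := h3
      exact ⟨s, rfl, hnr r, hs⟩
    · left
      have hx1 : quadraticChar k (x - r) = -1 := by
        apply chi_neg_one_iff (sub_ne_zero.mpr hxr)
        intro h3
        rw [h3] at hx
        simp at hx
      have h3 : ∃ s : k[X], (X - C r) * u ∣ h * (C x - X) - s ^ 2 := by
        apply sq_crt hcop
        · apply sq_lin
          rw [eval_mul, map_mul, h1]
          simp [hx1]
        · apply sq_irr hk hu
          apply hNx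
          exact ⟨0, by ring⟩
      obtain ⟨s, hs⟩ := h3
      have h4 : quadraticChar k (((X - C r) * u).eval x) = 1 := by
        rw [eval_mul, map_mul]
        simp [hx1, hx2]
      have h5 : ((X - C r) * u).eval x ≠ 0 := by
        intro h5
        rw [h5] at h4
        simp at h4
      obtain ⟨y, hy⟩ := (quadraticChar_one_iff_isSquare h5).mp h4
      refine ⟨x, y, s, ?_, by rw [hy, sq], hs⟩
      rintro rfl
      rw [mul_zero] at hy
      exact h5 hy

omit [Fintype k] [DecidableEq k] in
lemma cop_lin {a b : k} (h : a ≠ b) : IsCoprime (X - C a : k[X]) (X - C b) :=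
  isCoprime_X_sub_C_of_isUnit_sub (sub_ne_zero.mpr h).isUnit

lemma sq3 {a b c : k} (hab : a ≠ b) (hac : a ≠ c) (hbc : b ≠ c) {g : k[X]}
    (ga : quadraticChar k (g.eval a) = 1) (gb : quadraticChar k (g.eval b) = 1)
    (gc : quadraticChar k (g.eval c) = 1) :
    ∃ s : k[X], (X - C a) * ((X - C b) * (X - C c)) ∣ g - s ^ 2 :=
  sq_crt ((cop_lin hab).mul_right (cop_lin hac)) (sq_lin ga)
    (sq_crt (cop_lin hbc) (sq_lin gb) (sq_lin gc))

lemma sum_two (hk : ringChar k ≠ 2) {a b : k} (hab : a ≠ b) :
    ∑ x : k, quadraticChar k ((x - a) * (x - b)) = -1 := by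
  have h2 : (2 : k) ≠ 0 := Ring.two_ne_zero hk
  have h3 : ((a - b) / 2) ^ 2 ≠ 0 := pow_ne_zero 2 (div_ne_zero (sub_ne_zero.mpr hab) h2)
  rw [← sum_char_quadratic hk ((a + b) / 2) (((a - b) / 2) ^ 2) h3]
  refine Finset.sum_congr rfl fun x _ => ?_
  congr 1
  field_simp
  ring

/-- three linear factors -/
lemma caseB' (hk : ringChar k ≠ 2) {a b c : k} (hab : a ≠ b) (hac : a ≠ c) (hbc : b ≠ c) {h : k[X]}
    (ha : quadraticChar k (h.eval a) = 1) (hb : quadraticChar k (h.eval b) = -1)
    (hc : quadraticChar k (h.eval c) = -1) :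
    Cl ((X - C a) * ((X - C b) * (X - C c))) h := by
  right
  have hsum : 0 < ∑ x : k, (1 + quadraticChar k (x - a)) * (1 - quadraticChar k (x - b)) *
      (1 - quadraticChar k (x - c)) := by
    have e : ∑ x : k, (1 + quadraticChar k (x - a)) * (1 - quadraticChar k (x - b)) *
        (1 - quadraticChar k (x - c)) =
        ∑ x : k, (1 + quadraticChar k ((x - a) * ((x - b) * (x - c)))) +
          ∑ x : k, quadraticChar k (x - a) - ∑ x : k, quadraticChar k (x - b) -
          ∑ x : k, quadraticChar k (x - c) - ∑ x : k, quadraticChar k ((x - a) * (x - b)) -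
          ∑ x : k, quadraticChar k ((x - a) * (x - c)) +
          ∑ x : k, quadraticChar k ((x - b) * (x - c)) := by
      rw [← Finset.sum_add_distrib, ← Finset.sum_sub_distrib, ← Finset.sum_sub_distrib,
        ← Finset.sum_sub_distrib, ← Finset.sum_sub_distrib, ← Finset.sum_add_distrib]
      refine Finset.sum_congr rfl fun x _ => ?_
      simp only [map_mul]
      ring
    rw [e, sum_char_linear hk, sum_char_linear hk, sum_char_linear hk, sum_two hk hab,
      sum_two hk hac, sum_two hk hbc]
    have := chi_sum_nonneg (k := k) fun x => (x - a) * ((x - b) * (x - c))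
    linarith
  obtain ⟨x, hx⟩ : ∃ x : k, 0 < (1 + quadraticChar k (x - a)) * (1 - quadraticChar k (x - b)) *
      (1 - quadraticChar k (x - c)) := by
    by_contra hcon
    push Not at hcon
    exact absurd hsum (not_lt.mpr (Finset.sum_nonpos fun x _ => hcon x))
  have x1 : quadraticChar k (x - a) ≠ -1 := by
    intro h1
    rw [h1] at hx
    simp at hx
  have x2 : quadraticChar k (x - b) ≠ 1 := by
    intro h1
    rw [h1] at hx
    simp at hx
  have x3 : quadraticChar k (x - c) ≠ 1 := by
    intro h1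
    rw [h1] at hx
    simp at hx
  by_cases xa : x = a
  · right
    subst xa
    have y2 := chi_neg_one_iff (sub_ne_zero.mpr hab) x2
    have y3 := chi_neg_one_iff (sub_ne_zero.mpr hac) x3
    have h3 : ∃ s : k[X], (X - C x) * ((X - C b) * (X - C c)) ∣
        h * (C x - X + (X - C b) * (X - C c)) - s ^ 2 := by
      apply sq3 hab hac hbc
      · have e : (C x - X + (X - C b) * (X - C c) : k[X]).eval x = (x - b) * (x - c) := by simp
        rw [eval_mul, map_mul, ha, e, map_mul, y2, y3]
        norm_num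
      · rw [eval_mul, map_mul, hb]
        simp [y2]
      · rw [eval_mul, map_mul, hc]
        simp [y3]
    obtain ⟨s, hs⟩ := h3
    refine ⟨x, (X - C b) * (X - C c), s, rfl, ?_, hs⟩
    simp [sub_ne_zero.mpr hab, sub_ne_zero.mpr hac]
  by_cases xb : x = b
  · right
    subst xb
    have y1 := chi_one_iff (sub_ne_zero.mpr (Ne.symm hab)) x1
    have y3 := chi_neg_one_iff (sub_ne_zero.mpr hbc) x3
    have h3 : ∃ s : k[X], (X - C a) * ((X - C x) * (X - C c)) ∣
        h * (C x - X + (X - C a) * (X - C c)) - s ^ 2 := by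
      apply sq3 hab hac hbc
      · rw [eval_mul, map_mul, ha]
        simp [y1]
      · have e : (C x - X + (X - C a) * (X - C c) : k[X]).eval x = (x - a) * (x - c) := by simp
        rw [eval_mul, map_mul, hb, e, map_mul, y1, y3]
        norm_num
      · rw [eval_mul, map_mul, hc]
        simp [y3]
    obtain ⟨s, hs⟩ := h3
    refine ⟨x, (X - C a) * (X - C c), s, by ring, ?_, hs⟩
    simp [sub_ne_zero.mpr (Ne.symm hab), sub_ne_zero.mpr hbc]
  by_cases xc : x = c
  · right
    subst xc
    have y1 := chi_one_iff (sub_ne_zero.mpr (Ne.symm hac)) x1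
    have y2 := chi_neg_one_iff (sub_ne_zero.mpr (Ne.symm hbc)) x2
    have h3 : ∃ s : k[X], (X - C a) * ((X - C b) * (X - C x)) ∣
        h * (C x - X + (X - C a) * (X - C b)) - s ^ 2 := by
      apply sq3 hab hac hbc
      · rw [eval_mul, map_mul, ha]
        simp [y1]
      · rw [eval_mul, map_mul, hb]
        simp [y2]
      · have e : (C x - X + (X - C a) * (X - C b) : k[X]).eval x = (x - a) * (x - b) := by simp
        rw [eval_mul, map_mul, hc, e, map_mul, y1, y2]
        norm_num
    obtain ⟨s, hs⟩ := h3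
    refine ⟨x, (X - C a) * (X - C b), s, by ring, ?_, hs⟩
    simp [sub_ne_zero.mpr (Ne.symm hac), sub_ne_zero.mpr (Ne.symm hbc)]
  left
  have y1 := chi_one_iff (sub_ne_zero.mpr xa) x1
  have y2 := chi_neg_one_iff (sub_ne_zero.mpr xb) x2
  have y3 := chi_neg_one_iff (sub_ne_zero.mpr xc) x3
  have h3 : ∃ s : k[X], (X - C a) * ((X - C b) * (X - C c)) ∣ h * (C x - X) - s ^ 2 := by
    apply sq3 hab hac hbc
    · rw [eval_mul, map_mul, ha]
      simp [y1]
    · rw [eval_mul, map_mul, hb]
      simp [y2]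
    · rw [eval_mul, map_mul, hc]
      simp [y3]
  obtain ⟨s, hs⟩ := h3
  have h4 : quadraticChar k (((X - C a) * ((X - C b) * (X - C c))).eval x) = 1 := by
    rw [eval_mul, eval_mul, map_mul, map_mul]
    simp [y1, y2, y3]
  have h5 : ((X - C a) * ((X - C b) * (X - C c))).eval x ≠ 0 := by
    intro h5
    rw [h5] at h4
    simp at h4
  obtain ⟨y, hy⟩ := (quadraticChar_one_iff_isSquare h5).mp h4
  refine ⟨x, y, s, ?_, by rw [hy, sq], hs⟩
  rintro rfl
  rw [mul_zero] at hy
  exact h5 hy

lemma caseB (hk : ringChar k ≠ 2) {a b c : k} (hab : a ≠ b) (hac : a ≠ c) (hbc : b ≠ c) {h : k[X]}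
    (hN : quadraticChar k (h.eval a) * (quadraticChar k (h.eval b) *
      quadraticChar k (h.eval c)) = 1) :
    Cl ((X - C a) * ((X - C b) * (X - C c))) h := by
  have key : ∀ x : k, quadraticChar k x = 0 ∨ quadraticChar k x = 1 ∨ quadraticChar k x = -1 :=
    qc_vals
  rcases key (h.eval a) with h1 | h1 | h1 <;> rcases key (h.eval b) with h2 | h2 | h2 <;>
    rcases key (h.eval c) with h3 | h3 | h3 <;> rw [h1, h2, h3] at hN <;> norm_num at hN
  · exact Or.inl (sq3 hab hac hbc h1 h2 h3)
  · exact caseB' hk hab hac hbc h1 h2 h3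
  · have e : (X - C a) * ((X - C b) * (X - C c)) = (X - C b) * ((X - C a) * (X - C c)) := by ring
    rw [e]
    exact caseB' hk (Ne.symm hab) hbc hac h2 h1 h3
  · have e : (X - C a) * ((X - C b) * (X - C c)) = (X - C c) * ((X - C a) * (X - C b)) := by ring
    rw [e]
    exact caseB' hk (Ne.symm hac) (Ne.symm hbc) hab h3 h1 h2

/-- a double root -/
lemma caseC (hk : ringChar k ≠ 2) {a b : k} (hab : a ≠ b) {h : k[X]}
    (hN : quadraticChar k (h.eval a) * (quadraticChar k (h.eval a) *
      quadraticChar k (h.eval b)) = 1) :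
    Cl ((X - C a) * ((X - C a) * (X - C b))) h := by
  have hcop : IsCoprime ((X - C a) * (X - C a) : k[X]) (X - C b) :=
    (cop_lin hab).mul_left (cop_lin hab)
  have hsq : ∀ g : k[X], quadraticChar k (g.eval a) = 1 → quadraticChar k (g.eval b) = 1 →
      ∃ s : k[X], (X - C a) * ((X - C a) * (X - C b)) ∣ g - s ^ 2 := by
    intro g h1 h2
    rw [← mul_assoc]
    exact sq_crt hcop (sq_lin2 hk h1) (sq_lin h2)
  have ha0 : h.eval a ≠ 0 := by
    intro h0
    rw [h0] at hN
    simp at hN
  have hb : quadraticChar k (h.eval b) = 1 := by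
    rw [← mul_assoc, ← map_mul, ← sq, quadraticChar_sq_one' ha0, one_mul] at hN
    exact hN
  rcases quadraticChar_dichotomy ha0 with h1 | h1
  · exact Or.inl (hsq h h1 hb)
  right
  have hsum : ∑ x : k, (1 - quadraticChar k (x - a)) * (1 + quadraticChar k (x - b)) =
      Fintype.card k + 1 := by
    have e : ∑ x : k, (1 - quadraticChar k (x - a)) * (1 + quadraticChar k (x - b)) =
        ∑ x : k, (1 : ℤ) - ∑ x : k, quadraticChar k (x - a) + ∑ x : k, quadraticChar k (x - b) -
          ∑ x : k, quadraticChar k ((x - a) * (x - b)) := by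
      rw [← Finset.sum_sub_distrib, ← Finset.sum_add_distrib, ← Finset.sum_sub_distrib]
      refine Finset.sum_congr rfl fun x _ => ?_
      simp only [map_mul]
      ring
    rw [e, sum_char_linear hk, sum_char_linear hk, sum_two hk hab]
    simp
  obtain ⟨x, hxa, hx⟩ : ∃ x : k, x ≠ a ∧ 0 < (1 - quadraticChar k (x - a)) *
      (1 + quadraticChar k (x - b)) := by
    by_contra hcon
    push Not at hcon
    rw [← Finset.sum_erase_add _ _ (Finset.mem_univ a)] at hsum
    have h3 : ∑ x ∈ Finset.univ.erase a, (1 - quadraticChar k (x - a)) *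
        (1 + quadraticChar k (x - b)) ≤ 0 :=
      Finset.sum_nonpos fun x hx => hcon x (Finset.ne_of_mem_erase hx)
    have h4 : (1 - quadraticChar k (a - a)) * (1 + quadraticChar k (a - b)) ≤ 2 := by
      rw [sub_self]
      rcases qc_vals (a - b) with h | h | h <;> rw [h] <;> simp
    have h5 : 1 < Fintype.card k := Fintype.one_lt_card
    have h6 : (1 : ℤ) < Fintype.card k := by exact_mod_cast h5
    linarith
  have x1 : quadraticChar k (x - a) = -1 := by
    apply chi_neg_one_iff (sub_ne_zero.mpr hxa)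
    intro h3
    rw [h3] at hx
    simp at hx
  have x2 : quadraticChar k (x - b) ≠ -1 := by
    intro h3
    rw [h3] at hx
    simp at hx
  by_cases hxb : x = b
  · right
    subst hxb
    have h3 : ∃ s : k[X], (X - C a) * ((X - C a) * (X - C x)) ∣
        h * (C x - X + (X - C a) * (X - C a)) - s ^ 2 := by
      apply hsq
      · rw [eval_mul, map_mul, h1]
        simp [x1]
      · have e : (C x - X + (X - C a) * (X - C a) : k[X]).eval x = (x - a) * (x - a) := by simp
        rw [eval_mul, map_mul, hb, e, map_mul, x1]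
        norm_num
    obtain ⟨s, hs⟩ := h3
    refine ⟨x, (X - C a) * (X - C a), s, by ring, ?_, hs⟩
    simp [sub_ne_zero.mpr (Ne.symm hab)]
  · left
    have y2 := chi_one_iff (sub_ne_zero.mpr hxb) x2
    have h3 : ∃ s : k[X], (X - C a) * ((X - C a) * (X - C b)) ∣ h * (C x - X) - s ^ 2 := by
      apply hsq
      · rw [eval_mul, map_mul, h1]
        simp [x1]
      · rw [eval_mul, map_mul, hb]
        simp [y2]
    obtain ⟨s, hs⟩ := h3
    obtain ⟨t, ht⟩ := (quadraticChar_one_iff_isSquare (sub_ne_zero.mpr hxb)).mp y2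
    refine ⟨x, (x - a) * t, s, ?_, ?_, hs⟩
    · refine mul_ne_zero (sub_ne_zero.mpr hxa) ?_
      rintro rfl
      rw [mul_zero] at ht
      exact hxb (sub_eq_zero.mp ht)
    · simp
      rw [ht]
      ring

omit [Fintype k] [DecidableEq k] in
lemma norm_ne {f h : k[X]} (hc : IsCoprime h f) : Algebra.norm k (AdjoinRoot.mk f h) ≠ 0 := by
  obtain ⟨a, b, hab⟩ := hc
  intro h0
  have h1 : AdjoinRoot.mk f a * AdjoinRoot.mk f h = 1 := by
    rw [← map_mul, ← map_one (AdjoinRoot.mk f), AdjoinRoot.mk_eq_mk]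
    exact ⟨-b, by linear_combination hab⟩
  have h2 := congrArg (Algebra.norm k) h1
  rw [map_mul, h0, mul_zero, map_one] at h2
  exact zero_ne_one h2

omit [Fintype k] [DecidableEq k] in
/-- Over a finite field of odd characteristic: every class of square norm comes from a point. -/
theorem ff0 [Finite k] (h2 : (2 : k) ≠ 0) (f h : k[X]) (hf : f.Monic) (hd : f.natDegree = 3)
    (hnc : ¬ ∃ a : k, f = (X - C a) ^ 3) (hc : IsCoprime h f)
    (hN : IsSquare (Algebra.norm k (AdjoinRoot.mk f h))) : Cl f h := by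
  classical
  let _ : Fintype k := Fintype.ofFinite k
  have hk : ringChar k ≠ 2 := by
    intro h3
    apply h2
    have := ringChar.spec k 2
    have h4 : ((2 : ℕ) : k) = 0 := (ringChar.spec k 2).mpr (by rw [h3])
    exact_mod_cast h4
  have hN1 := (quadraticChar_one_iff_isSquare (norm_ne hc)).mpr hN
  have hf1 : f ≠ 1 := by
    rintro rfl
    simp at hd
  have hh0 : h ≠ 0 := by
    rintro rfl
    have h3 := isCoprime_zero_left.mp hc
    have h4 := natDegree_eq_zero_of_isUnit h3
    omega
  by_cases hirr : Irreducible f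
  · exact Or.inl (sq_irr hk hirr hN1)
  obtain ⟨r, hr⟩ : ∃ r : k, f.IsRoot r := by
    by_contra hcon
    push Not at hcon
    apply hirr
    rw [hf.irreducible_iff_roots_eq_zero_of_degree_le_three (by omega) (by omega)]
    rw [Multiset.eq_zero_iff_forall_notMem]
    intro r hr
    exact hcon r (isRoot_of_mem_roots hr)
  obtain ⟨u, rfl⟩ := dvd_iff_isRoot.mpr hr
  have hu : u.Monic := (monic_X_sub_C r).of_mul_monic_left hf
  have hdu : u.natDegree = 2 := by
    rw [(monic_X_sub_C r).natDegree_mul hu, natDegree_X_sub_C] at hd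
    omega
  rw [norm_mod_mul (monic_X_sub_C r) hu hh0, norm_lin r hh0, map_mul] at hN1
  by_cases hui : Irreducible u
  · exact caseA hk hui hu hdu hN1
  obtain ⟨b, hb⟩ : ∃ b : k, u.IsRoot b := by
    by_contra hcon
    push Not at hcon
    apply hui
    rw [hu.irreducible_iff_roots_eq_zero_of_degree_le_three (by omega) (by omega)]
    rw [Multiset.eq_zero_iff_forall_notMem]
    intro r hr
    exact hcon r (isRoot_of_mem_roots hr)
  obtain ⟨v, rfl⟩ := dvd_iff_isRoot.mpr hb
  have hv : v.Monic := (monic_X_sub_C b).of_mul_monic_left hu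
  have hdv : v.natDegree = 1 := by
    rw [(monic_X_sub_C b).natDegree_mul hv, natDegree_X_sub_C] at hdu
    omega
  obtain ⟨c, rfl⟩ : ∃ c : k, v = X - C c := by
    refine ⟨-v.coeff 0, ?_⟩
    rw [C_neg, sub_neg_eq_add]
    exact hv.eq_X_add_C hdv
  rw [norm_mod_mul (monic_X_sub_C b) (monic_X_sub_C c) hh0, norm_lin b hh0, norm_lin c hh0,
    map_mul] at hN1
  by_cases hrb : r = b
  · subst hrb
    by_cases hrc : r = c
    · subst hrc
      exact absurd ⟨r, by ring⟩ hnc
    · exact caseC hk hrc hN1
  · by_cases hrc : r = c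
    · subst hrc
      have e : (X - C r) * ((X - C b) * (X - C r)) = (X - C r) * ((X - C r) * (X - C b)) := by ring
      rw [e]
      exact caseC hk hrb (by rw [← hN1]; ring)
    · by_cases hbc : b = c
      · subst hbc
        have e : (X - C r) * ((X - C b) * (X - C b)) = (X - C b) * ((X - C b) * (X - C r)) := by
          ring
        rw [e]
        exact caseC hk (Ne.symm hrb) (by rw [← hN1]; ring)
      · exact caseB hk hrb hrc hbc hN1

/-- The statement `S_FF` of `H68K/PR/Stm.lean`. -/
theorem ff : ∀ (k : Type) [Field k] [Finite k], (2 : k) ≠ 0 → ∀ f h : k[X], f.Monic →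
    f.natDegree = 3 → f.coeff 2 = 0 → (¬ ∃ a : k, f = (X - C a) ^ 3) → IsCoprime h f →
    IsSquare (Algebra.norm k (AdjoinRoot.mk f h)) →
    (∃ s : k[X], f ∣ h - s ^ 2) ∨
    (∃ (x y : k) (s : k[X]), y ≠ 0 ∧ y ^ 2 = f.eval x ∧ f ∣ h * (C x - X) - s ^ 2) ∨
    ∃ (r : k) (u s : k[X]), f = (X - C r) * u ∧ u.eval r ≠ 0 ∧ f ∣ h * (C r - X + u) - s ^ 2 :=
  fun _ _ _ h2 f h hf hd _ hnc hc hN => ff0 h2 f h hf hd hnc hc hN

end Pool.Agent.H72P.PR
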