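import Pool.Agent.H72P.PR.Adic
import Pool.Agent.H72P.PR.FF

/-!
# PR/ODD: lifting of points from the residue field
-/

set_option autoImplicit false
set_option linter.all false

open WithZero Polynomial

namespace Pool.Agent.H72P.PR

section lift

variable {O k : Type} [CommRing O] [Field k] (ρ : O →+* k) (π : O)

/-- polynomials with zero reduction -/
theorem red_zero (hker : ∀ x, ρ x = 0 ↔ π ∣ x) {p : O[X]} (hp : p.map ρ = 0) :
    ∃ q : O[X], p = C π * q := by
  have h : C π ∣ p := by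
    rw [C_dvd_iff_dvd_coeff]
    intro i
    rw [← hker, ← coeff_map, hp, coeff_zero]
  exact h

/-- lifting of square roots modulo a monic polynomial -/
theorem sqlift [hO : IsAdicComplete (Ideal.span {π}) O] (hρ : Function.Surjective ρ)
    (hker : ∀ x, ρ x = 0 ↔ π ∣ x) (h2 : IsUnit (2 : O)) {F U : O[X]} (hF : F.Monic)
    (hc : IsCoprime (U.map ρ) (F.map ρ)) (hs : ∃ s : k[X], F.map ρ ∣ U.map ρ - s ^ 2) :
    ∃ g : O[X], F ∣ U - g ^ 2 := by
  classical
  let pb := AdjoinRoot.powerBasis' hF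
  have hcomp := complete_free pb.basis π
  have hsurj : Function.Surjective (Polynomial.map ρ) := Polynomial.map_surjective ρ hρ
  have halg : algebraMap O (AdjoinRoot F) π = AdjoinRoot.mk F (C π) := rfl
  obtain ⟨s, q, hsq⟩ := hs
  obtain ⟨S, rfl⟩ := hsurj s
  obtain ⟨Q, rfl⟩ := hsurj q
  obtain ⟨W, hW⟩ := red_zero ρ π hker (p := U - S ^ 2 - F * Q) (by
    rw [Polynomial.map_sub, Polynomial.map_sub, Polynomial.map_pow, Polynomial.map_mul, hsq,
      sub_self])
  obtain ⟨a, b, hab⟩ := hc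
  obtain ⟨a', rfl⟩ := hsurj a
  obtain ⟨b', rfl⟩ := hsurj b
  obtain ⟨W', hW'⟩ := red_zero ρ π hker (p := a' * U + b' * F - 1) (by
    rw [Polynomial.map_sub, Polynomial.map_add, Polynomial.map_mul, Polynomial.map_mul,
      Polynomial.map_one, hab, sub_self])
  have hmkF : AdjoinRoot.mk F F = 0 := AdjoinRoot.mk_self
  obtain ⟨g, hg⟩ := sqrt_of_complete (B := AdjoinRoot F)
    (I := Ideal.span {algebraMap O (AdjoinRoot F) π}) (u := AdjoinRoot.mk F U)
    (s := AdjoinRoot.mk F S) (by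
      have := h2.map (algebraMap O (AdjoinRoot F))
      rwa [map_ofNat] at this) (by
      rw [isUnit_iff_exists_inv']
      refine ⟨Ideal.Quotient.mk _ (AdjoinRoot.mk F a'), ?_⟩
      rw [← map_mul, ← map_one (Ideal.Quotient.mk _), Ideal.Quotient.eq,
        Ideal.mem_span_singleton', halg]
      refine ⟨AdjoinRoot.mk F W', ?_⟩
      rw [← map_mul, mul_comm W', ← hW', map_sub, map_add, map_mul, map_mul, hmkF, map_one]
      ring) (by
      rw [Ideal.mem_span_singleton', halg]
      refine ⟨AdjoinRoot.mk F W, ?_⟩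
      rw [← map_mul, mul_comm W, ← hW, map_sub, map_sub, map_pow, map_mul, hmkF]
      ring)
  obtain ⟨g, rfl⟩ := AdjoinRoot.mk_surjective g
  refine ⟨g, ?_⟩
  rw [← AdjoinRoot.mk_eq_mk, hg, map_pow]

/-- square roots in `O` -/
theorem sqlift0 [hO : IsAdicComplete (Ideal.span {π}) O]
    (hker : ∀ x, ρ x = 0 ↔ π ∣ x) (h2 : IsUnit (2 : O)) {u s : O} (hu : IsUnit u)
    (hs : ρ u = ρ s ^ 2) : ∃ g : O, u = g ^ 2 := by
  refine sqrt_of_complete (I := Ideal.span {π}) (s := s) h2 (hu.map _) ?_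
  rw [Ideal.mem_span_singleton, ← hker, map_sub, map_pow, hs, sub_self]

/-- the local theorem over the valuation ring -/
theorem lt0 [Finite k] [hO : IsAdicComplete (Ideal.span {π}) O] (hρ : Function.Surjective ρ)
    (hker : ∀ x, ρ x = 0 ↔ π ∣ x) (hunit : ∀ x, ρ x ≠ 0 → IsUnit x) (h2 : (2 : k) ≠ 0)
    (hπ : π ≠ 0) [IsDomain O]
    {f u : O[X]} (hf : f.Monic) (hd : f.natDegree = 3) (hcube : ¬ ∃ a, f.map ρ = (X - C a) ^ 3)
    (hc : IsCoprime (u.map ρ) (f.map ρ))
    (hN : IsSquare (Algebra.norm k (AdjoinRoot.mk (f.map ρ) (u.map ρ)))) :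
    (∃ g : O[X], f ∣ u - g ^ 2) ∨
    ∃ (x y : O) (g : O[X]), y ≠ 0 ∧ y ^ 2 = f.eval x ∧ f ∣ (C x - X) * u - g ^ 2 := by
  classical
  let _ : Fintype k := Fintype.ofFinite k
  have hfr : (f.map ρ).Monic := hf.map ρ
  have hdr : (f.map ρ).natDegree = 3 := by rw [hf.natDegree_map, hd]
  have h2O : IsUnit (2 : O) := hunit 2 (by rwa [map_ofNat])
  rcases ff0 h2 (f.map ρ) (u.map ρ) hfr hdr hcube hc hN with h | h | h
  · exact Or.inl (sqlift ρ π hρ hker h2O hf hc h)
  · right
    obtain ⟨xb, yb, s, hy0, hy, hs⟩ := h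
    obtain ⟨x, rfl⟩ := hρ xb
    obtain ⟨y0, rfl⟩ := hρ yb
    rw [eval_map_apply] at hy
    have hu : IsUnit (f.eval x) := hunit _ (by rw [← hy]; exact pow_ne_zero 2 hy0)
    obtain ⟨y, hy'⟩ := sqlift0 ρ π hker h2O hu hy.symm
    obtain ⟨g, hg⟩ := sqlift ρ π hρ hker h2O (U := (C x - X) * u) hf (by
      rw [Polynomial.map_mul]
      refine IsCoprime.mul_left ?_ hc
      rw [Polynomial.map_sub, map_X, map_C]
      have h3 : IsCoprime (X - C (ρ x)) (f.map ρ) := by
        refine (irreducible_X_sub_C (ρ x)).coprime_iff_not_dvd.mpr fun h4 => ?_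
        rw [dvd_iff_isRoot, IsRoot.def, eval_map_apply, ← hy] at h4
        exact pow_ne_zero 2 hy0 h4
      have h4 := h3.neg_left
      rwa [neg_sub] at h4) ⟨s, by
      rw [Polynomial.map_mul, Polynomial.map_sub, map_X, map_C, mul_comm]
      exact hs⟩
    refine ⟨x, y, g, ?_, hy'.symm, hg⟩
    rintro rfl
    rw [hy', zero_pow two_ne_zero] at hu
    exact not_isUnit_zero hu
  · right
    obtain ⟨rb, vb, s, hfv, hvr, hs⟩ := h
    obtain ⟨r0, rfl⟩ := hρ rb
    -- the root
    obtain ⟨r, hr, hr0⟩ := HenselianRing.is_henselian (I := Ideal.span {π}) f hf r0 (by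
      rw [Ideal.mem_span_singleton, ← hker, ← eval_map_apply, hfv]
      simp) (by
      have h3 : ρ ((derivative f).eval r0) ≠ 0 := by
        rw [← eval_map_apply, ← derivative_map, hfv]
        simp
        exact hvr
      exact (hunit _ h3).map _)
    have hρr : ρ r = ρ r0 := by
      rw [Ideal.mem_span_singleton, ← hker, map_sub, sub_eq_zero] at hr0
      exact hr0
    rw [← hρr] at hfv hvr hs
    obtain ⟨V, rfl⟩ := dvd_iff_isRoot.mpr hr
    have hV : V.Monic := (monic_X_sub_C r).of_mul_monic_left hf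
    have hVv : V.map ρ = vb := by
      rw [Polynomial.map_mul, Polynomial.map_sub, map_X, map_C] at hfv
      exact mul_left_cancel₀ (X_sub_C_ne_zero _) hfv
    have hVr : ρ (V.eval r) ≠ 0 := by
      rw [← eval_map_apply, hVv]
      exact hvr
    obtain ⟨W, hW⟩ := X_sub_C_dvd_sub_C_eval (p := V) (a := r)
    obtain ⟨d, hd'⟩ := (hunit _ hVr).exists_right_inv
    have hdC : C (V.eval r) * C d = (1 : O[X]) := by rw [← C_mul, hd', C_1]
    obtain ⟨e, he⟩ : ∃ e : O[X], e = C d * V := ⟨_, rfl⟩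
    have hcop : IsCoprime (X - C r) V := by
      refine ⟨-(C d * W), C d, ?_⟩
      linear_combination C d * hW + hdC
    obtain ⟨x, hx⟩ : ∃ x : O, x = r + V.eval r * π ^ 2 := ⟨_, rfl⟩
    have key : (X - C r) * V ∣ (C x - X) - (C r - X + V) * (1 + (C π - 1) * e) ^ 2 *
        (1 + C π ^ 2 * (W * (1 - e))) := by
      have he1 : (X - C r) ∣ e - 1 := ⟨C d * W, by rw [he]; linear_combination C d * hW + hdC⟩
      have he2 : V ∣ e := ⟨C d, by rw [he]; ring⟩
      obtain ⟨q1, hq1⟩ := he1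
      obtain ⟨q2, hq2⟩ := he2
      apply hcop.mul_dvd
      · have e1 : e = 1 + (X - C r) * q1 := by linear_combination hq1
        have e2 : V = C (V.eval r) + (X - C r) * W := by linear_combination hW
        have hxC : (C x : O[X]) = C r + C (V.eval r) * C π ^ 2 := by
          rw [hx, C_add, C_mul, C_pow]
        rw [hxC]
        have h5 : (X - C r) ∣ (C r - X + V) * (1 + (C π - 1) * e) ^ 2 *
            (1 + C π ^ 2 * (W * (1 - e))) - C (V.eval r) * C π ^ 2 := by
          have h6 : (X - C r) ∣ (C r - X + V) - C (V.eval r) := ⟨W - 1, by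
            linear_combination hW⟩
          have h7 : (X - C r) ∣ (1 + (C π - 1) * e) ^ 2 - C π ^ 2 := by
            refine ⟨(C π - 1) * q1 * (1 + (C π - 1) * e + C π), ?_⟩
            rw [e1]
            ring
          have h8 : (X - C r) ∣ (1 + C π ^ 2 * (W * (1 - e))) - 1 := by
            refine ⟨-(C π ^ 2 * W * q1), ?_⟩
            rw [e1]
            ring
          obtain ⟨z1, hz1⟩ := h6
          obtain ⟨z2, hz2⟩ := h7
          obtain ⟨z3, hz3⟩ := h8
          refine ⟨z1 * ((1 + (C π - 1) * e) ^ 2 * (1 + C π ^ 2 * (W * (1 - e)))) +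
            C (V.eval r) * (z2 * (1 + C π ^ 2 * (W * (1 - e)))) +
            C (V.eval r) * C π ^ 2 * z3, ?_⟩
          linear_combination ((1 + (C π - 1) * e) ^ 2 * (1 + C π ^ 2 * (W * (1 - e)))) * hz1 +
            C (V.eval r) * (1 + C π ^ 2 * (W * (1 - e))) * hz2 + C (V.eval r) * C π ^ 2 * hz3
        obtain ⟨z, hz⟩ := h5
        refine ⟨-1 - z, ?_⟩
        linear_combination -hz
      · have hxC : (C x : O[X]) = C r + C (V.eval r) * C π ^ 2 := by
          rw [hx, C_add, C_mul, C_pow]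
        rw [hxC, hq2]
        refine ⟨C π ^ 2 - (1 + (C π - 1) * (V * q2)) ^ 2 * (1 + C π ^ 2 * (W * (1 - V * q2))) -
          (C r - X) * (2 * (C π - 1) * q2 + V * ((C π - 1) * q2) ^ 2) *
            (1 + C π ^ 2 * (W * (1 - V * q2))) + (C r - X) * (C π ^ 2 * W * q2), ?_⟩
        linear_combination C π ^ 2 * (-1) * hW
    -- the square roots
    have hTc : IsCoprime ((C r - X + V).map ρ) (((X - C r) * V).map ρ) := by
      rw [Polynomial.map_mul, Polynomial.map_add, Polynomial.map_sub, Polynomial.map_sub, map_X,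
        map_C, hVv]
      have h3 : IsCoprime (X - C (ρ r)) vb := by
        refine (irreducible_X_sub_C (ρ r)).coprime_iff_not_dvd.mpr fun h4 => ?_
        rw [dvd_iff_isRoot, IsRoot.def] at h4
        exact hvr h4
      refine IsCoprime.mul_right ?_ ?_
      · have h4 := h3.symm.add_mul_left_left (-1)
        have e1 : vb + (X - C (ρ r)) * (-1) = C (ρ r) - X + vb := by ring
        rwa [e1] at h4
      · have h4 := h3.neg_left.add_mul_left_left 1
        have e1 : -(X - C (ρ r)) + vb * 1 = C (ρ r) - X + vb := by ring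
        rwa [e1] at h4
    obtain ⟨g1, hg1⟩ := sqlift ρ π hρ hker h2O (U := (C r - X + V) * u) hf (by
      rw [Polynomial.map_mul]
      exact hTc.mul_left hc) ⟨s, by
      rw [Polynomial.map_mul, Polynomial.map_mul, Polynomial.map_add, Polynomial.map_sub,
        Polynomial.map_sub, map_X, map_C, hVv]
      rw [Polynomial.map_mul, Polynomial.map_sub, map_X, map_C, hVv] at hs
      rw [mul_comm (C (ρ r) - X + vb)]
      exact hs⟩
    have hπ0 : ρ π = 0 := (hker π).mpr dvd_rfl
    have hU2 : (1 + C π ^ 2 * (W * (1 - e))).map ρ = 1 := by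
      have h3 : (C π ^ 2 * (W * (1 - e)) : O[X]).map ρ = 0 := by
        rw [Polynomial.map_mul, Polynomial.map_pow, map_C, hπ0]
        simp
      rw [Polynomial.map_add, Polynomial.map_one, h3, add_zero]
    obtain ⟨g2, hg2⟩ := sqlift ρ π hρ hker h2O (U := 1 + C π ^ 2 * (W * (1 - e))) hf (by
      rw [hU2]
      exact isCoprime_one_left) ⟨1, by
      rw [hU2]
      simp⟩
    have hfx : ((X - C r) * V).eval x = (V.eval r * π) ^ 2 * (1 + π ^ 2 * W.eval x) := by
      have h3 := congrArg (Polynomial.eval x) hW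
      rw [eval_sub, eval_C, eval_mul, eval_sub, eval_X, eval_C] at h3
      rw [eval_mul, eval_sub, eval_X, eval_C]
      have h4 : x - r = V.eval r * π ^ 2 := by rw [hx]; ring
      rw [h4] at h3 ⊢
      linear_combination V.eval r * π ^ 2 * h3
    obtain ⟨η, hη⟩ := sqlift0 ρ π hker h2O (u := 1 + π ^ 2 * W.eval x) (s := 1) (by
      apply hunit
      rw [map_add, map_mul, map_pow, hπ0]
      simp) (by
      rw [map_add, map_mul, map_pow, hπ0]
      simp)
    have hη0 : η ≠ 0 := by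
      rintro rfl
      have h3 := congrArg ρ hη
      rw [map_add, map_mul, map_pow, hπ0] at h3
      simp at h3
    have hVr0 : V.eval r ≠ 0 := by
      intro h3
      rw [h3, map_zero] at hVr
      exact hVr rfl
    refine ⟨x, V.eval r * π * η, g1 * (1 + (C π - 1) * e) * g2,
      mul_ne_zero (mul_ne_zero hVr0 hπ) hη0, ?_, ?_⟩
    · rw [hfx, hη]
      ring
    · obtain ⟨z1, hz1⟩ := key
      obtain ⟨z2, hz2⟩ := hg1
      obtain ⟨z3, hz3⟩ := hg2
      refine ⟨z1 * u + z2 * ((1 + (C π - 1) * e) ^ 2 * (1 + C π ^ 2 * (W * (1 - e)))) +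
        g1 ^ 2 * (1 + (C π - 1) * e) ^ 2 * z3, ?_⟩
      linear_combination u * hz1 +
        ((1 + (C π - 1) * e) ^ 2 * (1 + C π ^ 2 * (W * (1 - e)))) * hz2 +
        g1 ^ 2 * (1 + (C π - 1) * e) ^ 2 * hz3

end lift

end Pool.Agent.H72P.PR
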