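import Pool.Agent.H72P.PR.Lt
import Pool.Agent.H723R3.EuclidLocal
import Pool.Agent.N747.PF.Iso2
import Pool.Agent.N883.SX.HenBase

/-!
# PR/ODD: the residue map of the completion, norms modulo a prime
-/

set_option autoImplicit false
set_option linter.all false

open WithZero Polynomial IsDedekindDomain NumberField
open scoped Classical

namespace Pool.Agent.H72P.PR

open Pool.Agent.N883.SX.HenBase (vv vv_emb vv_int vv_lt vv_one)
open Pool.Agent.N783.PF
open Pool.Agent.N644.PQ.HunB (Mu)

section res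

variable {F : Type} [Field F] [NumberField F] (w : HeightOneSpectrum (𝓞 F))

/-- the integers of `F` in the completion -/
noncomputable def iO : 𝓞 F →+* OK (w.adicCompletion F) :=
  ((algebraMap F (w.adicCompletion F)).comp (algebraMap (𝓞 F) F)).codRestrict _
    (fun x => vv_int w x)

theorem iO_coe (x : 𝓞 F) : ((iO w x : OK (w.adicCompletion F)) : w.adicCompletion F) =
    algebraMap F (w.adicCompletion F) (x : F) := rfl

/-- the maximal ideal -/
noncomputable def mO : Ideal (OK (w.adicCompletion F)) where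
  carrier := {x | vK (w.adicCompletion F) (x : w.adicCompletion F) < 1}
  zero_mem' := by
    show vK _ (0 : w.adicCompletion F) < 1
    rw [map_zero]
    exact zero_lt_one
  add_mem' := by
    intro a b ha hb
    show vK (w.adicCompletion F) ((a : w.adicCompletion F) + b) < 1
    exact lt_of_le_of_lt (Valuation.map_add _ _ _) (max_lt ha hb)
  smul_mem' := by
    intro c x hx
    show vK _ ((c : w.adicCompletion F) * x) < 1
    rw [map_mul]
    exact lt_of_le_of_lt (mul_le_of_le_one_left' c.2) hx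

theorem mem_mO (x : OK (w.adicCompletion F)) :
    x ∈ mO w ↔ vK (w.adicCompletion F) (x : w.adicCompletion F) < 1 := Iff.rfl

/-- the residue map -/
theorem exists_res : ∃ ρ : OK (w.adicCompletion F) →+* (𝓞 F ⧸ w.asIdeal),
    Function.Surjective ρ ∧
    (∀ x, ρ x = 0 ↔ vK (w.adicCompletion F) (x : w.adicCompletion F) < 1) ∧
    ∀ a, ρ (iO w a) = Ideal.Quotient.mk w.asIdeal a := by
  let ψ : 𝓞 F →+* OK (w.adicCompletion F) ⧸ mO w := (Ideal.Quotient.mk (mO w)).comp (iO w)
  have hψs : Function.Surjective ψ := by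
    intro y
    obtain ⟨x, rfl⟩ := Ideal.Quotient.mk_surjective y
    obtain ⟨r, hr⟩ := Pool.Agent.H723R3.exists_approx_int (R := 𝓞 F) w x.2 1
    refine ⟨r, ?_⟩
    show Ideal.Quotient.mk (mO w) (iO w r) = Ideal.Quotient.mk (mO w) x
    rw [Ideal.Quotient.eq, mem_mO]
    exact hr
  have hker : RingHom.ker ψ = w.asIdeal := by
    ext a
    rw [RingHom.mem_ker]
    show Ideal.Quotient.mk (mO w) (iO w a) = 0 ↔ _
    rw [Ideal.Quotient.eq_zero_iff_mem, mem_mO, iO_coe]
    exact vv_lt w a
  let e := (Ideal.quotEquivOfEq hker).symm.trans (RingHom.quotientKerEquivOfSurjective hψs)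
  have he : ∀ a, e (Ideal.Quotient.mk w.asIdeal a) = Ideal.Quotient.mk (mO w) (iO w a) :=
    fun a => rfl
  refine ⟨(e.symm : OK (w.adicCompletion F) ⧸ mO w →+* 𝓞 F ⧸ w.asIdeal).comp
    (Ideal.Quotient.mk (mO w)), ?_, ?_, ?_⟩
  · exact e.symm.surjective.comp Ideal.Quotient.mk_surjective
  · intro x
    show e.symm (Ideal.Quotient.mk (mO w) x) = 0 ↔ _
    rw [RingEquiv.symm_apply_eq, map_zero, Ideal.Quotient.eq_zero_iff_mem, mem_mO]
  · intro a
    show e.symm (Ideal.Quotient.mk (mO w) (iO w a)) = _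
    rw [RingEquiv.symm_apply_eq, he]

theorem exists_unif : ∃ π : OK (w.adicCompletion F), (π : w.adicCompletion F) ≠ 0 ∧
    vK (w.adicCompletion F) (π : w.adicCompletion F) < 1 ∧
    ∀ x : OK (w.adicCompletion F), vK (w.adicCompletion F) (x : w.adicCompletion F) < 1 ↔
      π ∣ x := by
  obtain ⟨p, hp⟩ := w.valuation_exists_uniformizer F
  have h1 : vK (w.adicCompletion F) (algebraMap F (w.adicCompletion F) p) = exp (-1) := by
    rw [← hp]
    exact vv_emb w p
  have h2 : exp (-1 : ℤ) < (1 : WithZero (Multiplicative ℤ)) := by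
    rw [← exp_zero, exp_lt_exp]
    norm_num
  refine ⟨⟨algebraMap F (w.adicCompletion F) p, (h1.le.trans h2.le)⟩, ?_, ?_, ?_⟩
  · intro h
    have h' : algebraMap F (w.adicCompletion F) p = 0 := h
    rw [h', map_zero] at h1
    exact exp_ne_zero h1.symm
  · show vK (w.adicCompletion F) (algebraMap F (w.adicCompletion F) p) < 1
    rw [h1]
    exact h2
  · intro x
    rw [dvd_iff_val]
    show _ ↔ _ ≤ vK (w.adicCompletion F) (algebraMap F (w.adicCompletion F) p)
    rw [h1]
    by_cases hx : vK (w.adicCompletion F) (x : w.adicCompletion F) = 0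
    · rw [hx]
      exact ⟨fun _ => zero_le, fun _ => zero_lt_one⟩
    · rw [← exp_log hx, ← exp_zero, exp_lt_exp, exp_le_exp]
      omega

end res

section nrm

variable {A : Type} [CommRing A]

/-- the norm in `A[X] / f` -/
theorem norm_mk [Nontrivial A] {g : ℕ} {f : A[X]} (hf : f.Monic) (hd : f.natDegree = 2 * g + 1)
    (q : A[X]) : Algebra.norm A (AdjoinRoot.mk f q) = (Mu g f q).det := by
  have hdim : (AdjoinRoot.powerBasis' hf).dim = 2 * g + 1 := hd
  let b : Module.Basis (Fin (2 * g + 1)) A (AdjoinRoot f) :=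
    (AdjoinRoot.powerBasis' hf).basis.reindex (finCongr hdim)
  have hb : ∀ i, b i = AdjoinRoot.root f ^ (i : ℕ) := by
    intro i
    rw [Module.Basis.reindex_apply, PowerBasis.basis_eq_pow]
    rfl
  rw [Algebra.norm_eq_matrix_det b, ← Matrix.det_transpose]
  congr 1
  ext i k
  rw [Matrix.transpose_apply, Algebra.leftMulMatrix_eq_repr_mul, hb]
  simp only [Mu, Matrix.of_apply]
  have h1 : AdjoinRoot.mk f q * AdjoinRoot.root f ^ (i : ℕ) = ∑ l : Fin (2 * g + 1),
      ((q * X ^ (i : ℕ)) %ₘ f).coeff l • b l := by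
    have h2 : AdjoinRoot.mk f q * AdjoinRoot.root f ^ (i : ℕ) =
        aeval (AdjoinRoot.root f) ((q * X ^ (i : ℕ)) %ₘ f) := by
      rw [aeval_modByMonic_eq_self_of_root (by rw [AdjoinRoot.aeval_eq, AdjoinRoot.mk_self]),
        AdjoinRoot.aeval_eq, map_mul, map_pow, AdjoinRoot.mk_X]
    rw [h2, aeval_eq_sum_range' (n := 2 * g + 1), Finset.sum_range]
    · refine Finset.sum_congr rfl fun l _ => ?_
      rw [hb]
    · refine lt_of_lt_of_eq (Polynomial.natDegree_modByMonic_lt _ hf ?_) hd
      intro h0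
      rw [h0, natDegree_one] at hd
      omega
  rw [h1, map_sum, Finsupp.finsetSum_apply, Finset.sum_eq_single k]
  · rw [map_smul, Finsupp.smul_apply, Module.Basis.repr_self, Finsupp.single_eq_same, smul_eq_mul,
      mul_one]
  · intro l _ hl
    rw [map_smul, Finsupp.smul_apply, Module.Basis.repr_self, Finsupp.single_eq_of_ne hl.symm,
      smul_zero]
  · intro h'
    exact absurd (Finset.mem_univ _) h'

theorem Mu_map {B : Type} [CommRing B] (φ : A →+* B) {g : ℕ} {f : A[X]} (hf : f.Monic)
    (q : A[X]) : (Mu g (f.map φ) (q.map φ)).det = φ (Mu g f q).det := by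
  rw [RingHom.map_det]
  congr 1
  ext i j
  simp only [Mu, Matrix.of_apply, RingHom.mapMatrix_apply, Matrix.map_apply]
  rw [← coeff_map, Polynomial.map_modByMonic _ hf, Polynomial.map_mul, Polynomial.map_pow, map_X]

end nrm

end Pool.Agent.H72P.PR
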