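import Pool.Agent.H72P.PR.Odd
import Pool.Agent.N73.PF.Exq
import Pool.Agent.N622.PJ.RecB
import Pool.Agent.N545.PF.TFQ

/-!
# PR/SQJ: trivial classes at the primes over `q`
-/

set_option autoImplicit false
set_option linter.all false

open WithZero Polynomial IsDedekindDomain NumberField
open scoped Classical

namespace Pool.Agent.H72P.PR

open Pool.Agent.N883.SX.HenBase (vv vv_emb vv_int vv_lt vv_one)
open Pool.Agent.N783.PF
open Pool.Agent.N644.PQ.HunB (Mu)
open Pool.Agent.N874.PP (Ev Sq1 U0)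
open Pool.Agent.N874.PM (PLoc)
open Pool.Agent.H68K.PR

section ff

variable {k : Type} [Field k] [Finite k]

theorem char_ne_two (h2 : (2 : k) ≠ 0) : ringChar k ≠ 2 := by
  intro h3
  have h4 : ((2 : ℕ) : k) = 0 := (ringChar.spec k 2).mpr (by rw [h3])
  exact h2 (by exact_mod_cast h4)

theorem sq_of_irr (h2 : (2 : k) ≠ 0) {f u : k[X]} (hirr : Irreducible f) (hc : IsCoprime u f)
    (hN : IsSquare (Algebra.norm k (AdjoinRoot.mk f u))) : ∃ t : k[X], f ∣ u - t ^ 2 := by
  let _ : Fintype k := Fintype.ofFinite k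
  exact sq_irr (char_ne_two h2) hirr ((quadraticChar_one_iff_isSquare (norm_ne hc)).mpr hN)

theorem sq_of_mul (h2 : (2 : k) ≠ 0) {r u : k[X]} (hr : r.Monic) (hirr : Irreducible r)
    (hr0 : r.eval 0 ≠ 0) (hc : IsCoprime u (X * r)) (ht : ∃ t : k[X], r ∣ u - t ^ 2)
    (hN : IsSquare (Algebra.norm k (AdjoinRoot.mk (X * r) u))) :
    ∃ t : k[X], X * r ∣ u - t ^ 2 := by
  let _ : Fintype k := Fintype.ofFinite k
  have hX : (X : k[X]) = X - C 0 := by simp
  have hcr : IsCoprime u r := hc.of_mul_right_right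
  have hu : u ≠ 0 := by
    rintro rfl
    exact hirr.not_isUnit (isCoprime_zero_left.mp hcr)
  have hn := norm_mod_mul (f := X) monic_X hr hu
  have e0 : Algebra.norm k (AdjoinRoot.mk (X : k[X]) u) = u.eval 0 := by
    conv_lhs => rw [hX]
    exact norm_lin 0 hu
  obtain ⟨t, ht⟩ := ht
  have e1 : Algebra.norm k (AdjoinRoot.mk r u) = Algebra.norm k (AdjoinRoot.mk r t) ^ 2 := by
    rw [← map_pow, ← map_pow]
    congr 1
    exact AdjoinRoot.mk_eq_mk.mpr ht
  have hn1 := norm_ne hcr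
  have hnt : Algebra.norm k (AdjoinRoot.mk r t) ≠ 0 := by
    intro h
    rw [e1, h] at hn1
    exact hn1 (by ring)
  rw [hn, e0, e1] at hN
  have h0 : u.eval 0 ≠ 0 := by
    have h3 := norm_ne hc
    rw [hn, e0] at h3
    exact left_ne_zero_of_mul h3
  have hsq : IsSquare (u.eval 0) := by
    obtain ⟨z, hz⟩ := hN
    refine ⟨z / Algebra.norm k (AdjoinRoot.mk r t), ?_⟩
    field_simp
    linear_combination hz
  refine sq_crt ?_ ?_ ⟨t, ht⟩
  · refine (irreducible_X).coprime_iff_not_dvd.mpr fun h => ?_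
    rw [X_dvd_iff, coeff_zero_eq_eval_zero] at h
    exact hr0 h
  · have h3 := sq_lin (h := u) (r := (0 : k)) ((quadraticChar_one_iff_isSquare h0).mpr hsq)
    rwa [← hX] at h3

end ff

section triv

variable {F L : Type} [Field F] [NumberField F] [Field L] [NumberField L] [Algebra F L]
  {f : (𝓞 F)[X]} {θ : L}

/-- the norm modulo `w` -/
theorem det_sq (hG : IsGen 1 f θ) (w : HeightOneSpectrum (𝓞 F)) {h s : F[X]} {u : (𝓞 F)[X]}
    (h1 : aeval θ h = (aeval θ s) ^ 2 * aeval θ (fF u)) (hα : aeval θ h ≠ 0)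
    (hN : IsSquare (algebraMap F (w.adicCompletion F) (Algebra.norm F (aeval θ h)))) :
    IsSquare (Ideal.Quotient.mk w.asIdeal (Mu 1 f u).det) := by
  obtain ⟨ρ, hρs, hρk, hρa⟩ := exists_res w
  have hfm : f.Monic := hG.mon
  have e1 : Algebra.norm F (aeval θ h) =
      (Algebra.norm F (aeval θ s)) ^ 2 * Algebra.norm F (aeval θ (fF u)) := by
    rw [h1, map_mul, map_pow]
  have hs0 : Algebra.norm F (aeval θ s) ≠ 0 := by
    rw [Algebra.norm_ne_zero_iff]
    intro h0
    rw [h0] at h1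
    exact hα (by rw [h1]; ring)
  have e3 : Algebra.norm F (aeval θ (fF u)) = algebraMap (𝓞 F) F (Mu 1 f u).det := by
    rw [Pool.Agent.N747.PF.norm_eq hG, ← Mu_map _ hfm]
  obtain ⟨y, hy⟩ := hN
  obtain ⟨ν, hν⟩ : ∃ ν, ν = algebraMap F (w.adicCompletion F) (Algebra.norm F (aeval θ s)) :=
    ⟨_, rfl⟩
  have hν0 : ν ≠ 0 := by
    rw [hν]
    exact (_root_.map_ne_zero _).mpr hs0
  have e4 : algebraMap F (w.adicCompletion F) ((Mu 1 f u).det : F) = (y / ν) * (y / ν) := by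
    rw [e1, map_mul, map_pow, ← hν, e3] at hy
    field_simp
    rw [sq, sq, ← hy]
    ring
  have hz : vK (w.adicCompletion F) (y / ν) ≤ 1 := by
    have h5 : vK (w.adicCompletion F) (y / ν) * vK (w.adicCompletion F) (y / ν) ≤ 1 := by
      rw [← map_mul, ← e4]
      exact vv_int w _
    by_contra hcon
    rw [not_le] at hcon
    exact absurd h5 (not_le.mpr (one_lt_mul'' hcon hcon))
  refine ⟨ρ ⟨y / ν, hz⟩, ?_⟩
  rw [← hρa, ← map_mul]
  congr 1
  exact Subtype.ext e4

/-- a class is trivial at `w` -/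
theorem triv (hG : IsGen 1 f θ) (w : HeightOneSpectrum (𝓞 F)) (hw2 : (2 : 𝓞 F) ∉ w.asIdeal)
    {h s : F[X]} {u u' : (𝓞 F)[X]} {m : 𝓞 F} (hm : m ∉ w.asIdeal)
    (h1 : aeval θ h = (aeval θ s) ^ 2 * aeval θ (fF u))
    (h2 : aeval θ (fF u) * aeval θ (fF u') = algebraMap F L (m : F))
    (ht : IsCoprime (rd w.asIdeal u) (rd w.asIdeal f) →
      ∃ t, rd w.asIdeal f ∣ rd w.asIdeal u - t ^ 2) :
    ∃ g : (w.adicCompletion F)[X],
      fK w f ∣ h.map (algebraMap F (w.adicCompletion F)) - g ^ 2 := by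
  have hfm : f.Monic := hG.mon
  have hmin := Pool.Agent.N747.PF.minp hG
  have hinj : Function.Injective (algebraMap (𝓞 F) F) := IsFractionRing.injective (𝓞 F) F
  have d1 : fF f ∣ h - s ^ 2 * fF u := by
    rw [← hmin]
    refine minpoly.dvd F θ ?_
    rw [map_sub, map_mul, map_pow, ← h1, sub_self]
  have d2 : f ∣ u * u' - C m := by
    have e1 : aeval θ (fF (u * u' - C m)) = 0 := by
      rw [fF, Polynomial.map_sub, Polynomial.map_mul, Polynomial.map_C, map_sub, map_mul, aeval_C,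
        sub_eq_zero]
      exact h2
    have e3 := minpoly.dvd F θ e1
    rw [hmin] at e3
    exact (Polynomial.map_dvd_map (algebraMap (𝓞 F) F) hinj hfm).1 e3
  letI : Field (𝓞 F ⧸ w.asIdeal) := Ideal.Quotient.field w.asIdeal
  have hcop : IsCoprime (rd w.asIdeal u) (rd w.asIdeal f) := by
    obtain ⟨q, hq⟩ := Polynomial.map_dvd (Ideal.Quotient.mk w.asIdeal) d2
    have hm0 : Ideal.Quotient.mk w.asIdeal m ≠ 0 := by
      rwa [Ne, Ideal.Quotient.eq_zero_iff_mem]
    have hC : C (Ideal.Quotient.mk w.asIdeal m)⁻¹ * C (Ideal.Quotient.mk w.asIdeal m) =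
        (1 : (𝓞 F ⧸ w.asIdeal)[X]) := by
      rw [← C_mul, inv_mul_cancel₀ hm0, C_1]
    refine ⟨C (Ideal.Quotient.mk w.asIdeal m)⁻¹ * u'.map (Ideal.Quotient.mk w.asIdeal),
      -(C (Ideal.Quotient.mk w.asIdeal m)⁻¹ * q), ?_⟩
    rw [Polynomial.map_sub, Polynomial.map_mul, map_C] at hq
    linear_combination C (Ideal.Quotient.mk w.asIdeal m)⁻¹ * hq + hC
  obtain ⟨ρ, hρs, hρk, hρa⟩ := exists_res w
  obtain ⟨π, hπ0, hπ1, hπd⟩ := exists_unif w
  haveI := adic π hπ0 hπ1
  have hker : ∀ x, ρ x = 0 ↔ π ∣ x := fun x => (hρk x).trans (hπd x)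
  have hunit : ∀ x : OK (w.adicCompletion F), ρ x ≠ 0 → IsUnit x := by
    intro x hx
    rw [Ne, hρk, not_lt] at hx
    rw [isUnit_iff_dvd_one, dvd_iff_val]
    show vK _ (1 : w.adicCompletion F) ≤ _
    rw [map_one]
    exact hx
  have hcomp : ρ.comp (iO w) = Ideal.Quotient.mk w.asIdeal := RingHom.ext hρa
  have hmap : ∀ p : (𝓞 F)[X], (p.map (iO w)).map ρ = rd w.asIdeal p := by
    intro p
    rw [Polynomial.map_map, hcomp]
  have hsub : ∀ p : (𝓞 F)[X], (p.map (iO w)).map (OK (w.adicCompletion F)).subtype = fK w p := by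
    intro p
    rw [Polynomial.map_map, fK, fF, Polynomial.map_map]
    rfl
  have h2k : (2 : 𝓞 F ⧸ w.asIdeal) ≠ 0 := by
    intro h
    apply hw2
    rw [← Ideal.Quotient.eq_zero_iff_mem, map_ofNat]
    exact h
  have h2O : IsUnit (2 : OK (w.adicCompletion F)) := hunit 2 (by rwa [map_ofNat])
  obtain ⟨g, hg⟩ := sqlift ρ π hρs hker h2O (F := f.map (iO w)) (U := u.map (iO w))
    (hfm.map _) (by rw [hmap, hmap]; exact hcop) (by rw [hmap, hmap]; exact ht hcop)
  have hg' := Polynomial.map_dvd (OK (w.adicCompletion F)).subtype hg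
  rw [Polynomial.map_sub, Polynomial.map_pow, hsub, hsub] at hg'
  obtain ⟨z, hz⟩ := hg'
  have hd' := Polynomial.map_dvd (algebraMap F (w.adicCompletion F)) d1
  rw [Polynomial.map_sub, Polynomial.map_mul, Polynomial.map_pow] at hd'
  obtain ⟨z', hz'⟩ := hd'
  refine ⟨s.map (algebraMap F (w.adicCompletion F)) * g.map (OK (w.adicCompletion F)).subtype,
    z' + s.map (algebraMap F (w.adicCompletion F)) ^ 2 * z, ?_⟩
  linear_combination hz' + s.map (algebraMap F (w.adicCompletion F)) ^ 2 * hz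

end triv

end Pool.Agent.H72P.PR
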